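import Mathlib

/-!
# Poincaré duality pairs of dimension three over the integers
-/

set_option autoImplicit false

open scoped Matrix

namespace Pool.Agent.H832.Pair

/-- The `G`-set `⨆_a G ⧸ H a`. -/
abbrev Cos {G : Type} [Group G] {k : ℕ} (H : Fin k → Subgroup G) : Type := Σ a : Fin k, G ⧸ H a

/-- A group `G` with a nonempty finite family of subgroups `H a`, `a < k`, which is a Poincaré duality
pair of dimension three over `ℤ` (Bieri, Eckmann): `G` is a duality group of dimension two, and its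
dualising module `H^2(G; ℤ[G])` is, up to the twist by the orientation character `w`, the kernel of
the augmentation `⨁_a ℤ[G ⧸ H a] → ℤ`.  The finitely generated projective modules of the resolution
`0 → P_2 → P_1 → P_0 → ℤ → 0` are the images `P_i = ℤ[G]^n · e_i` of idempotent matrices (row
vectors), the differentials are `v ↦ v · d1` and `v ↦ v · d2`; the dual modules `Hom(P_i, ℤ[G])`
are `e_i · ℤ[G]^n` (column vectors), a right `G`-module. -/
structure PDPair3 (G : Type) [Group G] where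
  /-- the size of the matrices -/
  n : ℕ
  /-- the idempotent matrix of `P_0` -/
  e0 : Matrix (Fin n) (Fin n) (MonoidAlgebra ℤ G)
  /-- the idempotent matrix of `P_1` -/
  e1 : Matrix (Fin n) (Fin n) (MonoidAlgebra ℤ G)
  /-- the idempotent matrix of `P_2` -/
  e2 : Matrix (Fin n) (Fin n) (MonoidAlgebra ℤ G)
  /-- the differential `P_1 → P_0` -/
  d1 : Matrix (Fin n) (Fin n) (MonoidAlgebra ℤ G)
  /-- the differential `P_2 → P_1` -/
  d2 : Matrix (Fin n) (Fin n) (MonoidAlgebra ℤ G)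
  e0_mul_e0 : e0 * e0 = e0
  e1_mul_e1 : e1 * e1 = e1
  e2_mul_e2 : e2 * e2 = e2
  e1_mul_d1 : e1 * d1 = d1
  d1_mul_e0 : d1 * e0 = d1
  e2_mul_d2 : e2 * d2 = d2
  d2_mul_e1 : d2 * e1 = d2
  /-- the augmentation `P_0 → ℤ` -/
  aug : (Fin n → MonoidAlgebra ℤ G) →+ ℤ
  aug_smul : ∀ (g : G) (v : Fin n → MonoidAlgebra ℤ G), aug (MonoidAlgebra.of ℤ G g • v) = aug v
  /-- the augmentation is surjective -/
  aug_surj : ∃ u, u ᵥ* e0 = u ∧ aug u = 1
  /-- exactness at `P_0` -/
  exact_zero : ∀ u, u ᵥ* e0 = u → (aug u = 0 ↔ ∃ v, v ᵥ* d1 = u)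
  /-- exactness at `P_1` -/
  exact_one : ∀ v, v ᵥ* e1 = v → (v ᵥ* d1 = 0 ↔ ∃ u, u ᵥ* d2 = v)
  /-- exactness at `P_2` -/
  exact_two : ∀ v, v ᵥ* e2 = v → v ᵥ* d2 = 0 → v = 0
  /-- `H^0(G; ℤ[G]) = 0` -/
  coh_zero : ∀ y, d1 *ᵥ y = 0 → e0 *ᵥ y = 0
  /-- `H^1(G; ℤ[G]) = 0` -/
  coh_one : ∀ y, d2 *ᵥ y = 0 → ∃ z, d1 *ᵥ z = e1 *ᵥ y
  /-- the orientation character -/
  w : G →* ℤˣ
  /-- the number of subgroups -/
  k : ℕ
  k_pos : 0 < k
  /-- the peripheral subgroups -/
  H : Fin k → Subgroup G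
  /-- the duality map, from `Hom(P_2, ℤ[G])` modulo the coboundaries to `⨁_a ℤ[G ⧸ H a]` -/
  ev : (Fin n → MonoidAlgebra ℤ G) →+ (Cos H →₀ ℤ)
  /-- its kernel are the coboundaries -/
  ker : ∀ y, ev y = 0 ↔ ∃ z, d2 *ᵥ z = e2 *ᵥ y
  /-- its image is the kernel of the augmentation -/
  range : ∀ v : Cos H →₀ ℤ, (v.sum fun _ r => r) = 0 ↔ ∃ y, ev y = v
  /-- it is equivariant -/
  smul : ∀ y g, ev (fun j => y j * MonoidAlgebra.of ℤ G g) =
    ((w g : ℤˣ) : ℤ) • (ev y).mapDomain fun e => (⟨e.1, g⁻¹ • e.2⟩ : Cos H)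

/-- The Euler characteristic of `G`: the alternating sum of the ranks (the coefficients of the traces
at the neutral element) of the modules of the resolution. -/
def PDPair3.euler {G : Type} [Group G] (D : PDPair3 G) : ℤ :=
  ∑ i, ((D.e0 i i).coeff 1 - (D.e1 i i).coeff 1 + (D.e2 i i).coeff 1)

/-- The group `H` is virtually abelian: it has an abelian subgroup of finite index. -/
def VirtAb (H : Type) [Group H] : Prop :=
  ∃ K : Subgroup H, K.FiniteIndex ∧ ∀ x ∈ K, ∀ y ∈ K, x * y = y * x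

/-- The Cayley graph of `G` with respect to the finite set `S`: the edges join `g` and `g s`. -/
def Cayley {G : Type} [Group G] (S : Finset G) : SimpleGraph G :=
  SimpleGraph.fromRel (fun g h => g⁻¹ * h ∈ S)

/-- The full subgraph of the Cayley graph on the half-space `{g | χ g ≥ 0}` is connected: for `χ ≠ 0`
and a finite generating set `S` this means that the class of the character `χ : G → ℝ` belongs to
the Bieri-Neumann-Strebel invariant `Σ¹(G)`. -/
def InSigma {G : Type} [Group G] (S : Finset G) (χ : G →* Multiplicative ℝ) : Prop :=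
  ((Cayley S).induce {g | 0 ≤ (χ g).toAdd}).Connected

end Pool.Agent.H832.Pair
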