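import Mathlib

set_option autoImplicit false

namespace Pool.Agent.H832.Koszul

open MonoidAlgebra

variable {G : Type} [Group G]

theorem coeff_mul_of (a : G) (x : MonoidAlgebra ℤ G) :
    (x * MonoidAlgebra.of ℤ G a).coeff = x.coeff.mapDomain (fun g => g * a) := by
  induction x using MonoidAlgebra.induction_linear with
  | zero => simp
  | add x y hx hy => rw [add_mul, coeff_add, hx, hy, coeff_add, Finsupp.mapDomain_add]
  | single g r => simp [MonoidAlgebra.single_mul_single]

theorem inj (a : G) (ha : ∀ i : ℤ, a ^ i = 1 → i = 0) (x : MonoidAlgebra ℤ G)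
    (hx : x * (MonoidAlgebra.of ℤ G a - 1) = 0) : x = 0 := by
  by_contra hne
  have h1 : x * MonoidAlgebra.of ℤ G a = x := by
    have := hx
    rw [mul_sub, mul_one, sub_eq_zero] at this
    exact this
  have hinj : Function.Injective (fun g : G => g * a) := mul_left_injective a
  have h2 : ∀ g, x.coeff (g * a) = x.coeff g := by
    intro g
    have h3 : (x * MonoidAlgebra.of ℤ G a).coeff (g * a) = x.coeff (g * a) := by rw [h1]
    rw [coeff_mul_of, Finsupp.mapDomain_apply hinj] at h3
    exact h3.symm
  have h4 : ∀ (g : G) (n : ℕ), x.coeff (g * a ^ n) = x.coeff g := by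
    intro g n
    induction n with
    | zero => simp
    | succ n ih => rw [pow_succ, ← mul_assoc, h2, ih]
  have h5 : ∃ g, x.coeff g ≠ 0 := by
    by_contra hc
    push Not at hc
    apply hne
    ext g
    simpa using hc g
  obtain ⟨g, hg⟩ := h5
  have h6 : Function.Injective (fun n : ℕ => g * a ^ n) := by
    intro m n hmn
    have : a ^ m = a ^ n := mul_left_cancel hmn
    have h7 : a ^ ((m : ℤ) - n) = 1 := by
      rw [zpow_sub, zpow_natCast, zpow_natCast, this, mul_inv_cancel]
    have := ha _ h7
    omega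
  have h8 : (Set.range (fun n : ℕ => g * a ^ n)).Infinite := Set.infinite_range_of_injective h6
  apply h8
  apply Set.Finite.subset x.coeff.support.finite_toSet
  rintro _ ⟨n, rfl⟩
  simp [h4, hg]

theorem quot (a b : G) (H : Subgroup G) (hH : H = Subgroup.closure {a, b}) (x : MonoidAlgebra ℤ G)
    (hx : x.coeff.mapDomain (QuotientGroup.mk : G → G ⧸ H) = 0) :
    ∃ p q : MonoidAlgebra ℤ G,
      x = p * (MonoidAlgebra.of ℤ G a - 1) + q * (MonoidAlgebra.of ℤ G b - 1) := by
  classical
  set P : MonoidAlgebra ℤ G → Prop := fun x => ∃ p q : MonoidAlgebra ℤ G,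
      x = p * (MonoidAlgebra.of ℤ G a - 1) + q * (MonoidAlgebra.of ℤ G b - 1) with hP
  have P0 : P 0 := ⟨0, 0, by simp⟩
  have Padd : ∀ x y, P x → P y → P (x + y) := by
    rintro x y ⟨p, q, h⟩ ⟨p', q', h'⟩
    exact ⟨p + p', q + q', by rw [h, h', add_mul, add_mul]; abel⟩
  have Pneg : ∀ x, P x → P (-x) := by
    rintro x ⟨p, q, h⟩
    exact ⟨-p, -q, by rw [h, neg_mul, neg_mul]; abel⟩
  have hcl : ∀ h ∈ Subgroup.closure ({a, b} : Set G), ∀ (g : G) (r : ℤ),
      P (single (g * h) r - single g r) := by
    intro h hh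
    induction hh using Subgroup.closure_induction with
    | mem y hy =>
      intro g r
      rcases hy with rfl | hy
      · exact ⟨single g r, 0, by simp [mul_sub, MonoidAlgebra.single_mul_single]⟩
      · rw [Set.mem_singleton_iff] at hy
        subst hy
        exact ⟨0, single g r, by simp [mul_sub, MonoidAlgebra.single_mul_single]⟩
    | one => intro g r; simpa using P0
    | mul y z _ _ ihy ihz =>
      intro g r
      have h1 := ihy g r
      have h2 := ihz (g * y) r
      have h3 := Padd _ _ h2 h1
      have : single (g * (y * z)) r - single g r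
        = (single (g * y * z) r - single (g * y) r) + (single (g * y) r - single g r) := by
        rw [mul_assoc]; abel
      rw [this]; exact h3
    | inv y _ ih =>
      intro g r
      have h1 := Pneg _ (ih (g * y⁻¹) r)
      have : single (g * y⁻¹) r - single g r
        = -(single (g * y⁻¹ * y) r - single (g * y⁻¹) r) := by
        rw [inv_mul_cancel_right]; abel
      rw [this]; exact h1
  let s : G ⧸ H → G := Quotient.out
  have hs : ∀ c, (QuotientGroup.mk (s c) : G ⧸ H) = c := fun c => Quotient.out_eq c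
  have key : ∀ x : MonoidAlgebra ℤ G,
      P (x - ofCoeff ((x.coeff.mapDomain (QuotientGroup.mk : G → G ⧸ H)).mapDomain s)) := by
    intro x
    induction x using MonoidAlgebra.induction_linear with
    | zero => simpa using P0
    | add x y hx hy =>
      have := Padd _ _ hx hy
      rw [coeff_add, Finsupp.mapDomain_add, Finsupp.mapDomain_add, ofCoeff_add]
      convert this using 1
      abel
    | single g r =>
      have h1 : (s (QuotientGroup.mk g))⁻¹ * g ∈ H := by
        rw [← QuotientGroup.eq, hs]
      have h1' : (s (QuotientGroup.mk g))⁻¹ * g ∈ Subgroup.closure ({a, b} : Set G) := by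
        rw [← hH]; exact h1
      have h2 := hcl _ h1' (s (QuotientGroup.mk g)) r
      rw [mul_inv_cancel_left] at h2
      simpa [Finsupp.mapDomain_single] using h2
  have := key x
  rw [hx, Finsupp.mapDomain_zero, ofCoeff_zero, sub_zero] at this
  exact this

theorem exact (a b : G) (hab : a * b = b * a) (hfree : ∀ i j : ℤ, a ^ i * b ^ j = 1 → i = 0 ∧ j = 0)
    (x y : MonoidAlgebra ℤ G)
    (hxy : x * (MonoidAlgebra.of ℤ G a - 1) + y * (MonoidAlgebra.of ℤ G b - 1) = 0) :
    ∃ z : MonoidAlgebra ℤ G, x = z * (1 - MonoidAlgebra.of ℤ G b) ∧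
      y = z * (MonoidAlgebra.of ℤ G a - 1) := by
  classical
  set H : Subgroup G := Subgroup.closure {a, a} with hH
  have hH' : H = Subgroup.zpowers a := by
    rw [hH, Set.pair_eq_singleton, Subgroup.zpowers_eq_closure]
  have hmk : ∀ g : G, (QuotientGroup.mk (g * a) : G ⧸ H) = QuotientGroup.mk g := by
    intro g
    rw [eq_comm, QuotientGroup.eq]
    rw [inv_mul_cancel_left, hH']
    exact Subgroup.mem_zpowers a
  -- the permutation
  let β : G ⧸ H → G ⧸ H := Quotient.map' (fun g => g * b) (by
    intro g g' h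
    rw [QuotientGroup.leftRel_apply] at h ⊢
    rw [hH', Subgroup.mem_zpowers_iff] at h ⊢
    obtain ⟨k, hk⟩ := h
    refine ⟨k, ?_⟩
    have hc : Commute (a ^ k) b := (show Commute a b from hab).zpow_left k
    have : g' = g * a ^ k := by rw [hk]; group
    rw [this]
    calc a ^ k = b⁻¹ * (b * a ^ k) := by group
      _ = b⁻¹ * (a ^ k * b) := by rw [hc.eq]
      _ = (g * b)⁻¹ * (g * a ^ k * b) := by group)
  have hβ : ∀ g : G, β (QuotientGroup.mk g) = QuotientGroup.mk (g * b) := fun g => rfl
  have hβn : ∀ (n : ℕ) (g : G), β^[n] (QuotientGroup.mk g) = QuotientGroup.mk (g * b ^ n) := by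
    intro n
    induction n with
    | zero => intro g; simp
    | succ n ih => intro g; rw [Function.iterate_succ_apply', ih, hβ, pow_succ, mul_assoc]
  have hmem : ∀ g g' : G, (QuotientGroup.mk g : G ⧸ H) = QuotientGroup.mk g' →
      ∃ k : ℤ, g' = g * a ^ k := by
    intro g g' h
    rw [QuotientGroup.eq, hH', Subgroup.mem_zpowers_iff] at h
    obtain ⟨k, hk⟩ := h
    exact ⟨k, by rw [hk]; group⟩
  have hβinj : Function.Injective β := by
    intro c c'
    refine QuotientGroup.induction_on c ?_
    intro g
    refine QuotientGroup.induction_on c' ?_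
    intro g' h
    rw [hβ, hβ] at h
    obtain ⟨k, hk⟩ := hmem _ _ h
    rw [QuotientGroup.eq, hH', Subgroup.mem_zpowers_iff]
    refine ⟨k, ?_⟩
    have hc : Commute (a ^ k) b := (show Commute a b from hab).zpow_left k
    have : g' * b = g * a ^ k * b := by rw [hk, mul_assoc, mul_assoc, hc.eq]
    have : g' = g * a ^ k := mul_right_cancel this
    rw [this]; group
  set f : G ⧸ H →₀ ℤ := y.coeff.mapDomain (QuotientGroup.mk : G → G ⧸ H) with hf
  have hfx : ∀ x : MonoidAlgebra ℤ G,
      (x * MonoidAlgebra.of ℤ G a).coeff.mapDomain (QuotientGroup.mk : G → G ⧸ H)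
        = x.coeff.mapDomain (QuotientGroup.mk : G → G ⧸ H) := by
    intro x
    rw [coeff_mul_of, ← Finsupp.mapDomain_comp]
    congr 1
    funext g
    exact hmk g
  have hfy : (y * MonoidAlgebra.of ℤ G b).coeff.mapDomain (QuotientGroup.mk : G → G ⧸ H)
        = f.mapDomain β := by
    rw [coeff_mul_of, ← Finsupp.mapDomain_comp, hf, ← Finsupp.mapDomain_comp]
    congr 1
  have hff : f.mapDomain β = f := by
    have h1 : x * MonoidAlgebra.of ℤ G a + y * MonoidAlgebra.of ℤ G b = x + y := by
      have h2 := hxy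
      rw [mul_sub, mul_sub, mul_one, mul_one] at h2
      have h3 : x * MonoidAlgebra.of ℤ G a + y * MonoidAlgebra.of ℤ G b - (x + y) = 0 := by
        rw [← h2]; abel
      exact sub_eq_zero.1 h3
    have h2 : (x * MonoidAlgebra.of ℤ G a + y * MonoidAlgebra.of ℤ G b).coeff.mapDomain
        (QuotientGroup.mk : G → G ⧸ H) = (x + y).coeff.mapDomain (QuotientGroup.mk : G → G ⧸ H) := by
      rw [h1]
    rw [coeff_add, coeff_add, Finsupp.mapDomain_add, Finsupp.mapDomain_add, hfx, hfy] at h2
    exact add_left_cancel h2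
  have hfβ : ∀ c, f (β c) = f c := by
    intro c
    have h1 : f.mapDomain β (β c) = f (β c) := by rw [hff]
    rw [Finsupp.mapDomain_apply hβinj] at h1
    exact h1.symm
  have hfn : ∀ (n : ℕ) c, f (β^[n] c) = f c := by
    intro n
    induction n with
    | zero => intro c; rfl
    | succ n ih => intro c; rw [Function.iterate_succ_apply', hfβ, ih]
  have hf0 : f = 0 := by
    by_contra hne
    have : ∃ c, f c ≠ 0 := by
      by_contra hc
      push Not at hc
      exact hne (Finsupp.ext hc)
    obtain ⟨c, hc⟩ := this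
    have hinj : Function.Injective (fun n : ℕ => β^[n] c) := by
      intro m n
      revert hc
      refine QuotientGroup.induction_on c ?_
      intro g _ hmn
      simp only [hβn] at hmn
      obtain ⟨k, hk⟩ := hmem _ _ hmn
      have h1 : b ^ n = b ^ m * a ^ k := by
        rw [mul_assoc] at hk
        exact mul_left_cancel hk
      have hc' : Commute (a ^ k) (b ^ m) := ((show Commute a b from hab).zpow_left k).pow_right m
      have h2 : a ^ k * b ^ ((m : ℤ) - n) = 1 := by
        rw [zpow_sub, zpow_natCast, zpow_natCast, ← mul_assoc, hc'.eq, ← h1, mul_inv_cancel]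
      have := (hfree _ _ h2).2
      omega
    have h8 : (Set.range (fun n : ℕ => β^[n] c)).Infinite := Set.infinite_range_of_injective hinj
    apply h8
    apply Set.Finite.subset f.support.finite_toSet
    rintro _ ⟨n, rfl⟩
    simp [hfn, hc]
  obtain ⟨p, q, hpq⟩ := quot a a H hH y hf0
  have hy : y = (p + q) * (MonoidAlgebra.of ℤ G a - 1) := by rw [hpq, add_mul]
  refine ⟨p + q, ?_, hy⟩
  have hcomm : (MonoidAlgebra.of ℤ G a - 1) * (MonoidAlgebra.of ℤ G b - 1)
      = (MonoidAlgebra.of ℤ G b - 1) * (MonoidAlgebra.of ℤ G a - 1) := by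
    have : MonoidAlgebra.of ℤ G a * MonoidAlgebra.of ℤ G b
        = MonoidAlgebra.of ℤ G b * MonoidAlgebra.of ℤ G a := by
      rw [← map_mul, ← map_mul, hab]
    rw [mul_sub, sub_mul, sub_mul, mul_sub, sub_mul, sub_mul, this]
    simp only [one_mul, mul_one]
    abel
  have h1 : (x + (p + q) * (MonoidAlgebra.of ℤ G b - 1)) * (MonoidAlgebra.of ℤ G a - 1) = 0 := by
    rw [add_mul, mul_assoc, ← hcomm, ← mul_assoc, ← hy]
    exact hxy
  have h2 := inj a (fun i hi => (hfree i 0 (by simpa using hi)).1) _ h1
  have h3 : x = -((p + q) * (MonoidAlgebra.of ℤ G b - 1)) := eq_neg_of_add_eq_zero_left h2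
  rw [h3, ← mul_neg, neg_sub]

end Pool.Agent.H832.Koszul
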