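import Mathlib

/-!
# A stable isomorphism from three projective resolutions (subtask of helper832)

`0 → P2 → P1 → P0 → N → 0`, `0 → D2 → D1 → D0 → M` and `0 → Q2 → Q1 → Q0 → M → 0` exact, the image of
`D0 → M` is the kernel of a surjection `β : M → N`, all `P, D, Q` projective. Then
`P0 × P2 × Q1 × D0 × D2 ≃ P1 × Q0 × Q2 × D1`.

Paper proof (Schanuel's lemma: if `f : P → X`, `g : P' → X` are surjective, `P, P'` projective, then
`ker f × P' ≃ ker g × P`, since both are isomorphic to the pullback `{(p, p') | f p = g p'}`; and if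
`f : P → X` is surjective and `X` projective then `P ≃ ker f × X`).

Let `Z = ker (p0 : P0 → N)` (so `P1 → Z` is onto with kernel `≃ P2`), `W = ker (β ∘ q0 : Q0 → N)`. Schanuel
for `p0` and `β ∘ q0` gives `Z × Q0 ≃ W × P0`.
Lift `d0 : D0 → M` through `q0 : Q0 → M` to `g : D0 → Q0` (`q0 ∘ g = d0`); `g` has values in `W`.
The map `D0 × Q1 → W`, `(x, y) ↦ g x + q1 y` is surjective (if `q ∈ W` then `q0 q ∈ ker β` is `d0 x` for some
`x`, so `q - g x ∈ ker q0 = im q1`). Let `K` be its kernel. So `D0 × Q1 × P0 → W × P0` is onto with kernel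
`≃ K`, and `P1 × Q0 → Z × Q0` is onto with kernel `≃ P2`. By Schanuel (over `Z × Q0 ≃ W × P0`):
`P2 × (D0 × Q1 × P0) ≃ K × (P1 × Q0)`. Hence `K` is projective (direct summand).
Now lift `g ∘ d1 : D1 → ker q0` through `q1` to `h : D1 → Q1` with `q1 ∘ h = - g ∘ d1` and consider
`D1 × Q2 → K`, `(x, y) ↦ (d1 x, h x + q2 y)`: it is onto (if `(x0, y0) ∈ K` then `d0 x0 = q0 g x0 = - q0 q1 y0 = 0` so
`x0 = d1 x`, and `q1 (y0 - h x) = - g x0 + g d1 x = 0` so `y0 - h x = q2 y`), and its kernel is
`{(x, y) | d1 x = 0, h x + q2 y = 0} ≃ ker d1 ≃ D2` (for `x` in `ker d1` one has `q1 (h x) = 0`, so there is a unique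
`y` with `q2 y = - h x`). As `K` is projective, `D1 × Q2 ≃ D2 × K`. Altogether
`P2 × D0 × Q1 × P0 × D2 ≃ K × P1 × Q0 × D2 ≃ D1 × Q2 × P1 × Q0`.
-/

set_option autoImplicit false

namespace Pool.Agent.H832.Schanuel

/-- Schanuel's lemma -/
theorem schanuel {R : Type} [Ring R] {K P L P' X : Type} [AddCommGroup K] [AddCommGroup P]
    [AddCommGroup L] [AddCommGroup P'] [AddCommGroup X] [Module R K] [Module R P] [Module R L]
    [Module R P'] [Module R X] [Module.Projective R P] [Module.Projective R P']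
    (i : K →ₗ[R] P) (f : P →ₗ[R] X) (j : L →ₗ[R] P') (g : P' →ₗ[R] X)
    (hi : Function.Injective i) (hif : Function.Exact i f) (hf : Function.Surjective f)
    (hj : Function.Injective j) (hjg : Function.Exact j g) (hg : Function.Surjective g) :
    Nonempty ((K × P') ≃ₗ[R] (L × P)) := by
  obtain ⟨s, hs⟩ := Module.projective_lifting_property g f hg
  obtain ⟨t, ht⟩ := Module.projective_lifting_property f g hf
  have hs' : ∀ x, g (s x) = f x := fun x => LinearMap.congr_fun hs x
  have ht' : ∀ x, f (t x) = g x := fun x => LinearMap.congr_fun ht x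
  let e : (LinearMap.ker f × P') ≃ₗ[R] (LinearMap.ker g × P) :=
    { toFun := fun x => (⟨x.2 - s ((x.1 : P) + t x.2), by
        have h := x.1.2
        rw [LinearMap.mem_ker] at h
        rw [LinearMap.mem_ker, map_sub, hs', map_add, h, ht', zero_add, sub_self]⟩,
        (x.1 : P) + t x.2)
      invFun := fun x => (⟨x.2 - t ((x.1 : P') + s x.2), by
        have h := x.1.2
        rw [LinearMap.mem_ker] at h
        rw [LinearMap.mem_ker, map_sub, ht', map_add, h, hs', zero_add, sub_self]⟩,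
        (x.1 : P') + s x.2)
      map_add' := by
        intro x y
        refine Prod.ext (Subtype.ext ?_) ?_
        · simp only [Prod.fst_add, Prod.snd_add, Submodule.coe_add, map_add]
          abel
        · simp only [Prod.fst_add, Prod.snd_add, Submodule.coe_add, map_add]
          abel
      map_smul' := by
        intro c x
        refine Prod.ext (Subtype.ext ?_) ?_
        · simp only [Prod.smul_fst, Prod.smul_snd, Submodule.coe_smul, map_add, map_smul,
            RingHom.id_apply, smul_sub, smul_add]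
        · simp only [Prod.smul_fst, Prod.smul_snd, Submodule.coe_smul, map_smul,
            RingHom.id_apply, smul_add]
      left_inv := by
        intro x
        refine Prod.ext (Subtype.ext ?_) ?_
        · simp
        · simp
      right_inv := by
        intro x
        refine Prod.ext (Subtype.ext ?_) ?_
        · simp
        · simp }
  have e1 : K ≃ₗ[R] LinearMap.ker f :=
    (LinearEquiv.ofInjective i hi).trans (LinearEquiv.ofEq _ _ (LinearMap.exact_iff.1 hif).symm)
  have e2 : L ≃ₗ[R] LinearMap.ker g :=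
    (LinearEquiv.ofInjective j hj).trans (LinearEquiv.ofEq _ _ (LinearMap.exact_iff.1 hjg).symm)
  exact ⟨((e1.prodCongr (LinearEquiv.refl R P')).trans e).trans
    (e2.symm.prodCongr (LinearEquiv.refl R P))⟩


theorem euler_iso {R : Type} [Ring R] {P0 P1 P2 D0 D1 D2 Q0 Q1 Q2 M N : Type}
    [AddCommGroup P0] [AddCommGroup P1] [AddCommGroup P2]
    [AddCommGroup D0] [AddCommGroup D1] [AddCommGroup D2]
    [AddCommGroup Q0] [AddCommGroup Q1] [AddCommGroup Q2] [AddCommGroup M] [AddCommGroup N]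
    [Module R P0] [Module R P1] [Module R P2] [Module R D0] [Module R D1] [Module R D2]
    [Module R Q0] [Module R Q1] [Module R Q2] [Module R M] [Module R N]
    [Module.Projective R P0] [Module.Projective R P1] [Module.Projective R P2]
    [Module.Projective R D0] [Module.Projective R D1] [Module.Projective R D2]
    [Module.Projective R Q0] [Module.Projective R Q1] [Module.Projective R Q2]
    (p0 : P0 →ₗ[R] N) (p1 : P1 →ₗ[R] P0) (p2 : P2 →ₗ[R] P1)
    (hp0 : Function.Surjective p0) (hp1 : Function.Exact p1 p0) (hp2 : Function.Exact p2 p1)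
    (hp3 : Function.Injective p2)
    (d0 : D0 →ₗ[R] M) (d1 : D1 →ₗ[R] D0) (d2 : D2 →ₗ[R] D1)
    (hd1 : Function.Exact d1 d0) (hd2 : Function.Exact d2 d1) (hd3 : Function.Injective d2)
    (q0 : Q0 →ₗ[R] M) (q1 : Q1 →ₗ[R] Q0) (q2 : Q2 →ₗ[R] Q1)
    (hq0 : Function.Surjective q0) (hq1 : Function.Exact q1 q0) (hq2 : Function.Exact q2 q1)
    (hq3 : Function.Injective q2)
    (β : M →ₗ[R] N) (hβ : Function.Surjective β) (hβd : Function.Exact d0 β) :
    Nonempty ((P0 × P2 × Q1 × D0 × D2) ≃ₗ[R] (P1 × Q0 × Q2 × D1)) := by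
  -- lift of `D0 → M`
  obtain ⟨g, hg⟩ := Module.projective_lifting_property q0 d0 hq0
  have hg' : ∀ x, q0 (g x) = d0 x := fun x => LinearMap.congr_fun hg x
  have hβd' : ∀ x, β (d0 x) = 0 := fun x => (hβd _).2 ⟨x, rfl⟩
  have hq1' : ∀ y, q0 (q1 y) = 0 := fun y => (hq1 _).2 ⟨y, rfl⟩
  have hq2' : ∀ y, q1 (q2 y) = 0 := fun y => (hq2 _).2 ⟨y, rfl⟩
  have hd1' : ∀ y, d0 (d1 y) = 0 := fun y => (hd1 _).2 ⟨y, rfl⟩
  have hd2' : ∀ y, d1 (d2 y) = 0 := fun y => (hd2 _).2 ⟨y, rfl⟩
  have hp1' : ∀ y, p0 (p1 y) = 0 := fun y => (hp1 _).2 ⟨y, rfl⟩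
  have hp2' : ∀ y, p1 (p2 y) = 0 := fun y => (hp2 _).2 ⟨y, rfl⟩
  -- `W`, `Z`
  set βq : Q0 →ₗ[R] N := β.comp q0 with hβq
  have hβqs : Function.Surjective βq := hβ.comp hq0
  obtain ⟨e1⟩ := schanuel (LinearMap.ker p0).subtype p0 (LinearMap.ker βq).subtype βq
    (Submodule.injective_subtype _) (LinearMap.exact_subtype_ker_map p0) hp0
    (Submodule.injective_subtype _) (LinearMap.exact_subtype_ker_map βq) hβqs
  -- the map `D0 × Q1 → W`
  let φ : (D0 × Q1) →ₗ[R] LinearMap.ker βq := (g.coprod q1).codRestrict _ (by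
    rintro ⟨x, y⟩
    rw [LinearMap.mem_ker, LinearMap.coprod_apply, hβq, LinearMap.comp_apply, map_add, hg', hq1',
      add_zero, hβd'])
  have hφ : ∀ x : D0 × Q1, ((φ x : LinearMap.ker βq) : Q0) = g x.1 + q1 x.2 := fun x => rfl
  have hφs : Function.Surjective φ := by
    rintro ⟨q, hq⟩
    rw [LinearMap.mem_ker, hβq, LinearMap.comp_apply] at hq
    obtain ⟨x, hx⟩ := (hβd _).1 hq
    obtain ⟨y, hy⟩ := (hq1 (q - g x)).1 (by rw [map_sub, hg', hx, sub_self])
    exact ⟨(x, y), Subtype.ext (by rw [hφ]; simp only; rw [hy]; abel)⟩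
  set K := LinearMap.ker φ with hK
  -- first isomorphism
  let π : P1 →ₗ[R] LinearMap.ker p0 := p1.codRestrict _ (fun x => hp1' x)
  have hπs : Function.Surjective π := by
    rintro ⟨x, hx⟩
    obtain ⟨y, hy⟩ := (hp1 x).1 hx
    exact ⟨y, Subtype.ext hy⟩
  obtain ⟨e2⟩ := schanuel
    (K := K) (P := (D0 × Q1) × P0) (L := P2) (P' := P1 × Q0) (X := LinearMap.ker βq × P0)
    ((LinearMap.inl R (D0 × Q1) P0).comp K.subtype) (φ.prodMap LinearMap.id)
    ((LinearMap.inl R P1 Q0).comp p2) (e1.toLinearMap.comp (π.prodMap LinearMap.id))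
    (by
      intro a b hab
      simp only [LinearMap.comp_apply, LinearMap.inl_apply, Prod.mk.injEq, and_true,
        Submodule.subtype_apply] at hab
      exact Subtype.ext hab)
    (by
      rintro ⟨x, p⟩
      constructor
      · intro h
        rw [LinearMap.prodMap_apply, Prod.mk_eq_zero] at h
        exact ⟨⟨x, h.1⟩, Prod.ext rfl h.2.symm⟩
      · rintro ⟨k, hk⟩
        rw [← hk]
        simp only [LinearMap.comp_apply, LinearMap.inl_apply, LinearMap.prodMap_apply,
          Submodule.subtype_apply, map_zero, Prod.mk_eq_zero, and_true]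
        exact k.2)
    (by
      rintro ⟨w, p⟩
      obtain ⟨x, hx⟩ := hφs w
      exact ⟨(x, p), by rw [LinearMap.prodMap_apply, hx]; rfl⟩)
    (by
      intro a b hab
      simp only [LinearMap.comp_apply, LinearMap.inl_apply, Prod.mk.injEq, and_true] at hab
      exact hp3 hab)
    (by
      rintro ⟨x, p⟩
      constructor
      · intro h
        rw [LinearMap.comp_apply, LinearEquiv.coe_coe, LinearEquiv.map_eq_zero_iff,
          LinearMap.prodMap_apply, Prod.mk_eq_zero] at h
        obtain ⟨y, hy⟩ := (hp2 x).1 (congrArg Subtype.val h.1)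
        exact ⟨y, Prod.ext hy h.2.symm⟩
      · rintro ⟨k, hk⟩
        rw [← hk, LinearMap.comp_apply, LinearEquiv.coe_coe, LinearEquiv.map_eq_zero_iff]
        simp only [LinearMap.comp_apply, LinearMap.inl_apply, LinearMap.prodMap_apply,
          map_zero, Prod.mk_eq_zero, and_true]
        exact Subtype.ext (hp2' k))
    (by
      rw [LinearMap.coe_comp]
      refine e1.surjective.comp ?_
      rintro ⟨w, p⟩
      obtain ⟨x, hx⟩ := hπs w
      exact ⟨(x, p), by rw [LinearMap.prodMap_apply, hx]; rfl⟩)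
  -- `K` is projective
  have hKp : Module.Projective R K := by
    refine Module.Projective.of_split
      (e2.toLinearMap.comp (LinearMap.inl R K (P1 × Q0)))
      ((LinearMap.fst R K (P1 × Q0)).comp e2.symm.toLinearMap) ?_
    ext x
    · simp
    · simp
  -- the map `h`
  let q1' : Q1 →ₗ[R] LinearMap.ker q0 := q1.codRestrict _ (fun x => hq1' x)
  have hq1s : Function.Surjective q1' := by
    rintro ⟨x, hx⟩
    obtain ⟨y, hy⟩ := (hq1 x).1 hx
    exact ⟨y, Subtype.ext hy⟩
  obtain ⟨h, hh⟩ := Module.projective_lifting_property q1'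
    ((-(g.comp d1)).codRestrict (LinearMap.ker q0) (fun x => by
      rw [LinearMap.mem_ker, LinearMap.neg_apply, map_neg, LinearMap.comp_apply, hg', hd1',
        neg_zero])) hq1s
  have hh' : ∀ x, q1 (h x) = - g (d1 x) := fun x =>
    congrArg Subtype.val (LinearMap.congr_fun hh x)
  let q2' : Q2 →ₗ[R] LinearMap.ker q1 := q2.codRestrict _ (fun x => hq2' x)
  have hq2s : Function.Surjective q2' := by
    rintro ⟨x, hx⟩
    obtain ⟨y, hy⟩ := (hq2 x).1 hx
    exact ⟨y, Subtype.ext hy⟩
  obtain ⟨u, hu⟩ := Module.projective_lifting_property q2'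
    ((-(h.comp d2)).codRestrict (LinearMap.ker q1) (fun x => by
      rw [LinearMap.mem_ker, LinearMap.neg_apply, map_neg, LinearMap.comp_apply, hh', hd2',
        map_zero, neg_zero, neg_zero])) hq2s
  have hu' : ∀ x, q2 (u x) = - h (d2 x) := fun x =>
    congrArg Subtype.val (LinearMap.congr_fun hu x)
  -- the map `D1 × Q2 → K`
  let ψ : (D1 × Q2) →ₗ[R] K :=
    ((d1.comp (LinearMap.fst R D1 Q2)).prod (h.coprod q2)).codRestrict K (by
      rintro ⟨x, y⟩
      rw [hK, LinearMap.mem_ker]
      refine Subtype.ext ?_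
      rw [hφ]
      simp only [LinearMap.prod_apply, Function.prod_apply, LinearMap.comp_apply,
        LinearMap.fst_apply, LinearMap.coprod_apply, map_add, hh', hq2', Submodule.coe_zero]
      abel)
  have hψ : ∀ x : D1 × Q2, ((ψ x : K) : D0 × Q1) = (d1 x.1, h x.1 + q2 x.2) := fun x => rfl
  have hψs : Function.Surjective ψ := by
    rintro ⟨⟨x0, y0⟩, hxy⟩
    have h1 : g x0 + q1 y0 = 0 := congrArg Subtype.val hxy
    have h2 : d0 x0 = 0 := by
      rw [← hg', eq_neg_of_add_eq_zero_left h1, map_neg, hq1', neg_zero]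
    obtain ⟨x, hx⟩ := (hd1 x0).1 h2
    obtain ⟨y, hy⟩ := (hq2 (y0 - h x)).1 (by
      rw [map_sub, hh', hx, sub_neg_eq_add, add_comm, h1])
    refine ⟨(x, y), Subtype.ext ?_⟩
    rw [hψ]
    refine Prod.ext hx ?_
    simp only
    rw [hy]; abel
  obtain ⟨e3⟩ := schanuel (K := D2) (P := D1 × Q2) (L := PUnit) (P' := K) (X := K)
    (d2.prod u) ψ (0 : PUnit →ₗ[R] K) LinearMap.id
    (by
      intro a b hab
      exact hd3 (congrArg Prod.fst hab))
    (by
      rintro ⟨x, y⟩
      constructor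
      · intro hxy
        have h1 : (d1 x, h x + q2 y) = (0 : D0 × Q1) := congrArg Subtype.val hxy
        rw [Prod.mk_eq_zero] at h1
        obtain ⟨z, hz⟩ := (hd2 x).1 h1.1
        refine ⟨z, Prod.ext hz (hq3 ?_)⟩
        show q2 (u z) = q2 y
        rw [hu', hz]
        exact neg_eq_of_add_eq_zero_right h1.2
      · rintro ⟨z, hz⟩
        rw [← hz]
        refine Subtype.ext ?_
        rw [hψ]
        show (d1 (d2 z), h (d2 z) + q2 (u z)) = 0
        rw [hd2', hu', add_neg_cancel]
        rfl)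
    hψs
    (fun a b _ => rfl)
    (by
      intro x
      constructor
      · intro hx
        exact ⟨PUnit.unit, by rw [LinearMap.zero_apply]; exact hx.symm⟩
      · rintro ⟨z, hz⟩
        rw [← hz]; rfl)
    Function.surjective_id
  -- reshuffling
  let r1 : (P0 × P2 × Q1 × D0 × D2) ≃ₗ[R] ((P2 × ((D0 × Q1) × P0)) × D2) :=
    { toFun := fun x => ((x.2.1, ((x.2.2.2.1, x.2.2.1), x.1)), x.2.2.2.2)
      invFun := fun x => (x.1.2.2, x.1.1, x.1.2.1.2, x.1.2.1.1, x.2)
      map_add' := fun _ _ => rfl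
      map_smul' := fun _ _ => rfl
      left_inv := fun _ => rfl
      right_inv := fun _ => rfl }
  let r2 : ((K × (P1 × Q0)) × D2) ≃ₗ[R] ((D2 × K) × (P1 × Q0)) :=
    { toFun := fun x => ((x.2, x.1.1), x.1.2)
      invFun := fun x => ((x.1.2, x.2), x.1.1)
      map_add' := fun _ _ => rfl
      map_smul' := fun _ _ => rfl
      left_inv := fun _ => rfl
      right_inv := fun _ => rfl }
  let r3 : ((PUnit × (D1 × Q2)) × (P1 × Q0)) ≃ₗ[R] (P1 × Q0 × Q2 × D1) :=
    { toFun := fun x => (x.2.1, x.2.2, x.1.2.2, x.1.2.1)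
      invFun := fun x => ((PUnit.unit, (x.2.2.2, x.2.2.1)), (x.1, x.2.1))
      map_add' := fun _ _ => rfl
      map_smul' := fun _ _ => rfl
      left_inv := fun _ => rfl
      right_inv := fun _ => rfl }
  exact ⟨r1.trans (((e2.symm.prodCongr (LinearEquiv.refl R D2)).trans r2).trans
    ((e3.prodCongr (LinearEquiv.refl R (P1 × Q0))).trans r3))⟩

end Pool.Agent.H832.Schanuel

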