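import Pool.Agent.H832.Pair.Main

/-!
# Restrictions to the peripheral subgroups, and inner derivations
-/

set_option autoImplicit false

namespace Pool.Agent.H832.Pair

open Pool.Agent.Helper386.PD3 Pool.Agent.Q103.BNS Pool.Agent.Helper158

set_option linter.unusedSectionVars false

open scoped Matrix Classical ENNReal

noncomputable section

variable {G : Type} [Group G]

/-- a function on `Cos H` with values in an abelian group extended to the free abelian group -/
def ext {k : ℕ} {H : Fin k → Subgroup G} {N : Type} [AddCommGroup N] (f : Cos H → N) :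
    (Cos H →₀ ℤ) →+ N := Finsupp.liftAddHom fun e => zmultiplesHom N (f e)

theorem ext_single {k : ℕ} {H : Fin k → Subgroup G} {N : Type} [AddCommGroup N] (f : Cos H → N)
    (e : Cos H) (r : ℤ) : ext f (Finsupp.single e r) = r • f e := by
  rw [ext, Finsupp.liftAddHom_apply_single]
  rfl

theorem act_single {k : ℕ} {H : Fin k → Subgroup G} (g : G) (e : Cos H) (r : ℤ) :
    act g (Finsupp.single e r) = Finsupp.single (⟨e.1, g • e.2⟩ : Cos H) r := by
  rw [act, Finsupp.mapDomain_single]

theorem act_add {k : ℕ} {H : Fin k → Subgroup G} (g : G) (v v' : Cos H →₀ ℤ) :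
    act g (v + v') = act g v + act g v' := Finsupp.mapDomain_add

/-- affine maps -/
theorem ext_act {k : ℕ} {H : Fin k → Subgroup G} {N : Type} [AddCommGroup N] {B : Type} [Ring B]
    [Module B N] (b : G → B) (f : Cos H → N) (δ : G → N)
    (hf : ∀ g (e : Cos H), f ⟨e.1, g • e.2⟩ = δ g + b g • f e) (g : G) (v : Cos H →₀ ℤ) :
    ext f (act g v) = (v.sum fun _ r => r) • δ g + b g • ext f v := by
  induction v using Finsupp.induction_linear with
  | zero =>
    rw [act, Finsupp.mapDomain_zero, map_zero, smul_zero, Finsupp.sum_zero_index, zero_smul,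
      add_zero]
  | add v v' h h' =>
    rw [act_add, map_add, h, h', map_add, smul_add,
      Finsupp.sum_add_index' (fun _ => rfl) (fun _ _ _ => rfl), add_smul]
    abel
  | single e r =>
    rw [act_single, ext_single, ext_single, hf, Finsupp.sum_single_index rfl, smul_add,
      smul_comm r (b g)]

/-- the function which is constant on a coset -/
theorem exists_nu (H : Subgroup G) (w : G →* ℤˣ) : ∃ ν : NN G, ∀ y, ν.ev (dl1 y) =
    if y ∈ H then (((w y : ℤˣ) : ℤ) : ℝ) else 0 := by
  refine exists_functional (fun y => if y ∈ H then (((w y : ℤˣ) : ℤ) : ℝ) else 0) 1 (fun y => ?_)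
  split_ifs
  · rcases Int.units_eq_one_or (w y) with h | h <;> simp [h]
  · simp

/-- **The restrictions of the character to the peripheral subgroups are not trivial.** -/
theorem exists_ne (D : PDPair3 G) (hE : D.euler = 0) (c : G →* ℝ) (hin : AllInner (iota c)) (t : G)
    (ht : 1 < c t) (a : Fin D.k) : ∃ x ∈ D.H a, c x ≠ 1 := by
  by_contra hcon
  push Not at hcon
  obtain ⟨ν, hν⟩ := exists_nu (D.H a) D.w
  have hinv : ∀ g ∈ D.H a, jj D.w c (gof g) • ν = ν := by
    intro g hg
    apply NN.ext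
    intro y
    rw [ev_jj, hcon g hg, inv_one, mul_one, hν, hν]
    by_cases hy : y ∈ D.H a
    · rw [if_pos hy, if_pos ((D.H a).mul_mem ((D.H a).inv_mem hg) hy), ← Int.cast_mul,
        ← Units.val_mul, ← map_mul, mul_inv_cancel_left]
    · have hy' : g⁻¹ * y ∉ D.H a := by
        intro h
        apply hy
        have := (D.H a).mul_mem hg h
        rwa [mul_inv_cancel_left] at this
      rw [if_neg hy, if_neg hy', mul_zero]
  let f0 : G ⧸ D.H a → NN G := fun q => Quotient.liftOn' q (fun g => jj D.w c (gof g) • ν) (by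
    intro g g' h
    rw [QuotientGroup.leftRel_apply] at h
    have e : g' = g * (g⁻¹ * g') := by group
    rw [e, gof_mul, map_mul, mul_smul, hinv _ h])
  have hf0 : ∀ g : G, f0 (QuotientGroup.mk g) = jj D.w c (gof g) • ν := fun g => rfl
  let f : Cos D.H → NN G := fun e => if h : e.1 = a then f0 (h ▸ e.2) else 0
  have hfa : ∀ q : G ⧸ D.H a, f ⟨a, q⟩ = f0 q := by
    intro q
    change (if h : a = a then f0 (h ▸ q) else 0) = f0 q
    rw [dif_pos rfl]
  have hf : ∀ g (e : Cos D.H), f ⟨e.1, g • e.2⟩ = (0 : G → NN G) g + jj D.w c (gof g) • f e := by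
    rintro g ⟨b, q⟩
    rw [Pi.zero_apply, zero_add]
    by_cases hb : b = a
    · subst hb
      rw [hfa, hfa]
      induction q using QuotientGroup.induction_on with
      | H k =>
        change f0 (QuotientGroup.mk (g * k)) = _
        rw [hf0, hf0, gof_mul, map_mul, mul_smul]
    · change (if h : b = a then _ else 0) = _ • (if h : b = a then _ else 0)
      rw [dif_neg hb, dif_neg hb, smul_zero]
  have hF := ext_act (fun g => jj D.w c (gof g)) f (0 : G → NN G) hf
  have h0 := hom_zero D hE c hin t ht (NN G) (ext f) (by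
    intro g v _
    rw [hF, Pi.zero_apply, smul_zero, zero_add])
    (Finsupp.single ⟨a, QuotientGroup.mk t⟩ 1 - Finsupp.single ⟨a, QuotientGroup.mk 1⟩ 1) (by
      rw [Finsupp.sum_sub_index (fun _ _ _ => rfl), Finsupp.sum_single_index rfl,
        Finsupp.sum_single_index rfl, sub_self])
  rw [map_sub, ext_single, ext_single, hfa, hfa, hf0, hf0, one_smul, one_smul, sub_eq_zero] at h0
  have h1 := congrArg (fun μ : NN G => μ.ev (dl1 1)) h0
  change (jj D.w c (gof t) • ν).ev (dl1 1) = (jj D.w c (gof 1) • ν).ev (dl1 1) at h1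
  have ht' : t⁻¹ * 1 ∉ D.H a := by
    rw [mul_one]
    intro h
    have := hcon _ h
    rw [c_inv, inv_eq_one] at this
    linarith
  rw [ev_jj, ev_jj, hν, hν, if_neg ht', if_pos (by simp [(D.H a).one_mem]), mul_zero] at h1
  simp at h1

/-- the elements `jj (g) - 1` are invertible if `c g ≠ 1` -/
theorem isUnit_jj (w : G →* ℤˣ) (c : G →* ℝ) (g : G) (hg : 0 < c g) (hg1 : c g ≠ 1) :
    IsUnit (jj w c (gof g) - 1) := by
  have e : jj w c (gof g) - 1 =
      MulOpposite.op (((((w g : ℤˣ) : ℤ) : ℝ) * c g⁻¹) • lamA g⁻¹ - 1) := by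
    rw [MulOpposite.op_sub, MulOpposite.op_one, jj_apply, dg_of, map_zsmul, iota_of,
      ← Int.cast_smul_eq_zsmul ℝ, smul_smul]
  rw [e]
  apply IsUnit.op
  have h1 : |(((w g : ℤˣ) : ℤ) : ℝ) * c g⁻¹| = (c g)⁻¹ := by
    rw [abs_mul, c_inv, abs_inv, abs_of_pos hg]
    have : |(((w g : ℤˣ) : ℤ) : ℝ)| = 1 := by
      rcases Int.units_eq_one_or (w g) with h | h <;> simp [h]
    rw [this, one_mul]
  rcases lt_or_gt_of_ne hg1 with h | h
  · apply isUnit_smul_sub_one'
    rw [h1]
    exact (one_lt_inv₀ hg).2 h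
  · apply isUnit_smul_sub_one
    rw [h1]
    exact inv_lt_one_of_one_lt₀ h

theorem smul_eq_zero_of_unit {B N : Type} [Ring B] [AddCommGroup N] [Module B N] {b : B}
    (hb : IsUnit (b - 1)) {x : N} (h : b • x = x) : x = 0 := by
  obtain ⟨u, hu⟩ := hb
  have h1 : (u : B) • x = 0 := by rw [hu, sub_smul, one_smul, h, sub_self]
  have h2 : (↑u⁻¹ : B) • (u : B) • x = 0 := by rw [h1, smul_zero]
  rwa [smul_smul, Units.inv_mul, one_smul] at h2

/-- Derivations are inner on virtually abelian subgroups on which the character is not trivial. -/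
theorem inner_on {B N : Type} [Ring B] [AddCommGroup N] [Module B N] (ι : RR G →+* B) (H : Subgroup G)
    (hH : VirtAb H) (c : G →* ℝ) (hc : ∀ g, 0 < c g)
    (hu : ∀ g : G, c g ≠ 1 → IsUnit (ι (gof g) - 1)) (x : G) (hx : x ∈ H) (hx1 : c x ≠ 1)
    (δ : G → N) (hδ : IsDer ι δ) : ∃ μ : N, ∀ g ∈ H, δ g = ι (gof g) • μ - μ := by
  obtain ⟨K, hK, hKab⟩ := hH
  have hKc : K.normalCore.FiniteIndex := inferInstance
  let s : H := (⟨x, hx⟩ : H) ^ K.normalCore.index
  have hs : s ∈ K.normalCore := Subgroup.pow_index_mem _ _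
  have hcs : c (s : G) ≠ 1 := by
    change c ((⟨x, hx⟩ : H) ^ K.normalCore.index : H) ≠ 1
    rw [Subgroup.coe_pow, map_pow]
    intro h
    apply hx1
    exact (pow_eq_one_iff_of_nonneg (hc x).le hKc.index_ne_zero).1 h
  obtain ⟨u, hu1⟩ := hu _ hcs
  let μ : N := (↑u⁻¹ : B) • δ (s : G)
  have hμ : ι (gof (s : G)) • μ - μ = δ (s : G) := by
    have h1 : (u : B) • μ = δ (s : G) := by
      change (u : B) • (↑u⁻¹ : B) • δ (s : G) = δ (s : G)
      rw [smul_smul, Units.mul_inv, one_smul]
    rw [hu1, sub_smul, one_smul] at h1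
    exact h1
  refine ⟨μ, ?_⟩
  let δ' : G → N := fun g => δ g - (ι (gof g) • μ - μ)
  have hδ' : ∀ g k, δ' (g * k) = δ' g + ι (gof g) • δ' k := by
    intro g k
    change δ (g * k) - (ι (gof (g * k)) • μ - μ) = (δ g - (ι (gof g) • μ - μ)) +
      ι (gof g) • (δ k - (ι (gof k) • μ - μ))
    rw [hδ, gof_mul, map_mul, mul_smul, smul_sub, smul_sub]
    abel
  have hs0 : δ' s = 0 := by
    change δ s - (ι (gof (s : G)) • μ - μ) = 0
    rw [hμ, sub_self]
  have hK0 : ∀ y ∈ K.normalCore, δ' y = 0 := by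
    intro y hy
    have h1 : (s : G) * y = y * s := by
      have := hKab s (Subgroup.normalCore_le K hs) y (Subgroup.normalCore_le K hy)
      exact congrArg Subtype.val this
    have h2 := hδ' s y
    rw [h1, hδ', hs0, smul_zero, add_zero, zero_add] at h2
    exact smul_eq_zero_of_unit (hu _ hcs) h2.symm
  intro g hg
  suffices h : δ' g = 0 from sub_eq_zero.1 h
  let g' : H := ⟨g, hg⟩
  have hy : g' * s * g'⁻¹ ∈ K.normalCore := (K.normalCore_normal).conj_mem _ hs _
  have h1 : (g : G) * s = (g' * s * g'⁻¹ : H) * g := by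
    change g * s = g * s * g⁻¹ * g
    group
  have h2 := hδ' g s
  rw [h1, hδ', hs0, smul_zero, add_zero, hK0 _ hy, zero_add] at h2
  refine smul_eq_zero_of_unit (hu ((g' * s * g'⁻¹ : H) : G) ?_) h2
  change c (g * s * g⁻¹) ≠ 1
  rw [map_mul, map_mul, c_inv, mul_comm (c g), mul_assoc, mul_inv_cancel₀ (hc g).ne', mul_one]
  exact hcs

/-- **All derivations are inner for the dual weight.** -/
theorem allInner_pair (D : PDPair3 G) (hE : D.euler = 0) (c : G →* ℝ) (hc : ∀ g, 0 < c g)
    (hin : AllInner (iota c)) (t : G) (ht : 1 < c t) (hH : ∀ a, VirtAb (D.H a)) :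
    AllInner (jj D.w c) := by
  intro N _ _ δ hδ
  have hloc : ∀ a, ∃ μ : N, ∀ g ∈ D.H a, δ g = jj D.w c (gof g) • μ - μ := by
    intro a
    obtain ⟨x, hx, hx1⟩ := exists_ne D hE c hin t ht a
    exact inner_on (jj D.w c) (D.H a) (hH a) c hc (fun g hg => isUnit_jj D.w c g (hc g) hg) x hx hx1
      δ hδ
  choose μ hμ using hloc
  let f0 : ∀ a, G ⧸ D.H a → N := fun a q =>
    Quotient.liftOn' q (fun g => δ g - jj D.w c (gof g) • μ a) (by
      intro g g' h
      rw [QuotientGroup.leftRel_apply] at h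
      have e : g' = g * (g⁻¹ * g') := by group
      rw [e, gof_mul, map_mul, mul_smul, hδ g (g⁻¹ * g'), hμ a _ h, smul_sub]
      abel)
  have hf0 : ∀ a (g : G), f0 a (QuotientGroup.mk g) = δ g - jj D.w c (gof g) • μ a :=
    fun a g => rfl
  let f : Cos D.H → N := fun e => f0 e.1 e.2
  have hf : ∀ g (e : Cos D.H), f ⟨e.1, g • e.2⟩ = δ g + jj D.w c (gof g) • f e := by
    rintro g ⟨b, q⟩
    induction q using QuotientGroup.induction_on with
    | H k =>
      change f0 b (QuotientGroup.mk (g * k)) = δ g + jj D.w c (gof g) • f0 b (QuotientGroup.mk k)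
      rw [hf0, hf0, hδ, gof_mul, map_mul, mul_smul, smul_sub]
      abel
  have hF := ext_act (fun g => jj D.w c (gof g)) f δ hf
  let a : Fin D.k := ⟨0, D.k_pos⟩
  refine ⟨μ a, fun g => ?_⟩
  have h0 := hom_zero D hE c hin t ht N (ext f) (by
    intro g v hv
    rw [hF, hv, zero_smul, zero_add])
    (Finsupp.single ⟨a, QuotientGroup.mk g⟩ 1 - Finsupp.single ⟨a, QuotientGroup.mk 1⟩ 1) (by
      rw [Finsupp.sum_sub_index (fun _ _ _ => rfl), Finsupp.sum_single_index rfl,
        Finsupp.sum_single_index rfl, sub_self])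
  rw [map_sub, ext_single, ext_single, one_smul, one_smul] at h0
  change (δ g - jj D.w c (gof g) • μ a) - (δ 1 - jj D.w c (gof 1) • μ a) = 0 at h0
  rw [hδ.one, gof_one, map_one, one_smul, zero_sub, sub_neg_eq_add] at h0
  have h1 : δ g = jj D.w c (gof g) • μ a - μ a := by
    rw [← sub_eq_zero, ← h0]
    abel
  exact h1

end

end Pool.Agent.H832.Pair
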