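import Pool.Agent.H832.Pair.Rank
import Pool.Agent.H832.Pair.Koszul
import Pool.Agent.H832.Pair.Schanuel
import Pool.Agent.H832.Pair.Sym

/-!
# The Euler characteristic of a Poincaré duality pair whose peripheral subgroups are free abelian of
rank two
-/

set_option autoImplicit false

namespace Pool.Agent.H832.Pair

open Pool.Agent.Helper386.PD3

set_option linter.unusedSectionVars false

open scoped Matrix Classical

noncomputable section

variable {G : Type} [Group G]

/-- additive maps which commute with `G` are linear -/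
def linOf {A B : Type} [AddCommGroup A] [AddCommGroup B] [Module (RR G) A] [Module (RR G) B]
    (f : A →+ B) (h : ∀ (g : G) a, f (gof g • a) = gof g • f a) : A →ₗ[RR G] B where
  toFun := f
  map_add' := f.map_add
  map_smul' r a := by
    rw [RingHom.id_apply]
    induction r using rr_ind with
    | h1 g => exact h g a
    | h2 x y hx hy => rw [add_smul, map_add, hx, hy, add_smul]
    | h3 x hx => rw [neg_smul, map_neg, hx, neg_smul]

/-- the trivial module -/
def Triv (_ : Type) : Type := ℤ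

instance : AddCommGroup (Triv G) := inferInstanceAs (AddCommGroup ℤ)

instance : Module (RR G) (Triv G) := Module.compHom ℤ (eps : RR G →+* ℤ)

theorem triv_smul (g : G) (x : Triv G) : gof g • x = x := by
  have h : ((eps (gof g) : ℤ) * (show ℤ from x) : ℤ) = (show ℤ from x) := by
    rw [eps_of, one_mul]
  exact h

/-- the permutation module -/
def PM {k : ℕ} (H : Fin k → Subgroup G) : Type := Cos H →₀ ℤ

instance {k : ℕ} (H : Fin k → Subgroup G) : AddCommGroup (PM H) :=
  inferInstanceAs (AddCommGroup (Cos H →₀ ℤ))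

/-- the action -/
def actHom {k : ℕ} (H : Fin k → Subgroup G) : G →* AddMonoid.End (Cos H →₀ ℤ) where
  toFun g := Finsupp.mapDomain.addMonoidHom fun e => (⟨e.1, g • e.2⟩ : Cos H)
  map_one' := by
    refine AddMonoidHom.ext fun v => ?_
    change Finsupp.mapDomain _ v = v
    have : (fun e : Cos H => (⟨e.1, (1 : G) • e.2⟩ : Cos H)) = id := by
      funext e
      rw [one_smul]
      rfl
    rw [this, Finsupp.mapDomain_id]
  map_mul' g h := by
    refine AddMonoidHom.ext fun v => ?_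
    change Finsupp.mapDomain _ v = Finsupp.mapDomain _ (Finsupp.mapDomain _ v)
    rw [← Finsupp.mapDomain_comp]
    congr 1
    funext e
    rw [Function.comp_apply, mul_smul]

instance {k : ℕ} (H : Fin k → Subgroup G) : Module (RR G) (PM H) :=
  Module.compHom (Cos H →₀ ℤ) (liftR (actHom H) : RR G →+* AddMonoid.End (Cos H →₀ ℤ))

theorem pm_smul {k : ℕ} (H : Fin k → Subgroup G) (g : G) (v : PM H) :
    gof g • v = (act g (show Cos H →₀ ℤ from v) : Cos H →₀ ℤ) := by
  change (liftR (actHom H) (gof g)) (show Cos H →₀ ℤ from v) = _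
  rw [liftR_of]
  rfl

/-! ### The dual side -/

section dual

variable {n : ℕ} (w : G →* ℤˣ)

/-- the involution on vectors -/
def bar (v : Fin n → RR G) : Fin n → RR G := fun j => dg w (v j)

theorem bar_bar (v : Fin n → RR G) : bar w (bar w v) = v := by
  funext j
  exact dg_dg w _

theorem bar_add (v v' : Fin n → RR G) : bar w (v + v') = bar w v + bar w v' := by
  funext j
  exact dg_add w _ _

theorem bar_zero : bar w (0 : Fin n → RR G) = 0 := by
  funext j
  exact dg_zero w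

theorem bar_vecMul (v : Fin n → RR G) (M : MR G n) :
    bar w (v ᵥ* dgM w M) = M *ᵥ bar w v := by
  funext j
  change dg w (∑ i, v i * dg w (M j i)) = ∑ i, M j i * dg w (v i)
  rw [dg_sum]
  exact Finset.sum_congr rfl fun i _ => by rw [dg_mul, dg_dg]

theorem vecMul_dgM (v : Fin n → RR G) (M : MR G n) :
    v ᵥ* dgM w M = bar w (M *ᵥ bar w v) := by
  rw [← bar_vecMul, bar_bar]

theorem dgM_idem {e : MR G n} (h : e * e = e) : dgM w e * dgM w e = dgM w e := by
  rw [← dgM_mul, h]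

theorem mem_Im_dgM {e : MR G n} {v : Fin n → RR G} : v ∈ Im (dgM w e) ↔ e *ᵥ bar w v = bar w v := by
  rw [mem_Im, vecMul_dgM]
  constructor
  · intro h
    have := congrArg (bar w) h
    rwa [bar_bar] at this
  · intro h
    rw [h, bar_bar]

end dual

section

variable (D : PDPair3 G)

/-- the duality map -/
def dd0 : Im (dgM D.w D.e2) →ₗ[RR G] PM D.H :=
  linOf (A := Im (dgM D.w D.e2)) (B := PM D.H)
    (AddMonoidHom.mk' (fun v => (D.ev (bar D.w (v : Fin D.n → RR G)) : Cos D.H →₀ ℤ)) (by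
      intro v v'
      change D.ev (bar D.w ((v : Fin D.n → RR G) + (v' : Fin D.n → RR G))) = _
      rw [bar_add, map_add]
      rfl))
    (by
      intro g v
      rw [pm_smul]
      change D.ev (bar D.w (gof g • (v : Fin D.n → RR G))) =
        act g (D.ev (bar D.w (v : Fin D.n → RR G)))
      have h1 : bar D.w (gof g • (v : Fin D.n → RR G)) =
          ((D.w g : ℤˣ) : ℤ) • (fun j => bar D.w (v : Fin D.n → RR G) j * gof g⁻¹) := by
        funext j
        change dg D.w (gof g * (v : Fin D.n → RR G) j) =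
          ((D.w g : ℤˣ) : ℤ) • (dg D.w ((v : Fin D.n → RR G) j) * gof g⁻¹)
        rw [dg_mul, dg_of, mul_smul_comm]
      have h2 := D.smul (bar D.w (v : Fin D.n → RR G)) g⁻¹
      rw [h1, map_zsmul]
      change _ • D.ev (fun j => bar D.w (v : Fin D.n → RR G) j * MonoidAlgebra.of ℤ G g⁻¹) = _
      rw [h2, smul_smul, ← Units.val_mul, ← map_mul, mul_inv_cancel, map_one, Units.val_one,
        one_smul, inv_inv])

theorem dd0_apply (v : Im (dgM D.w D.e2)) :
    dd0 D v = (D.ev (bar D.w (v : Fin D.n → RR G)) : Cos D.H →₀ ℤ) := rfl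

/-- the first differential of the dual complex -/
def dd1 : Im (dgM D.w D.e1) →ₗ[RR G] Im (dgM D.w D.e2) :=
  mulM _ _ (dgM D.w D.d2) (by rw [← dgM_mul, D.e2_mul_d2])

/-- the second differential of the dual complex -/
def dd2 : Im (dgM D.w D.e0) →ₗ[RR G] Im (dgM D.w D.e1) :=
  mulM _ _ (dgM D.w D.d1) (by rw [← dgM_mul, D.e1_mul_d1])

theorem exact_dd1 : Function.Exact (dd1 D) (dd0 D) := by
  intro v
  constructor
  · intro h
    obtain ⟨z, hz⟩ := (D.ker _).1 h
    rw [(mem_Im_dgM D.w).1 v.2] at hz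
    refine ⟨⟨bar D.w (D.e1 *ᵥ z), ?_⟩, Subtype.ext ?_⟩
    · rw [mem_Im_dgM, bar_bar, Matrix.mulVec_mulVec, D.e1_mul_e1]
    · change (bar D.w (D.e1 *ᵥ z)) ᵥ* dgM D.w D.d2 = (v : Fin D.n → RR G)
      rw [vecMul_dgM, bar_bar, Matrix.mulVec_mulVec, D.d2_mul_e1, hz, bar_bar]
  · rintro ⟨u, rfl⟩
    change D.ev (bar D.w ((u : Fin D.n → RR G) ᵥ* dgM D.w D.d2)) = 0
    rw [bar_vecMul, ev_mulVec]

theorem exact_dd2 : Function.Exact (dd2 D) (dd1 D) := by
  intro v
  constructor
  · intro h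
    have h1 : (v : Fin D.n → RR G) ᵥ* dgM D.w D.d2 = 0 := congrArg Subtype.val h
    have h2 : D.d2 *ᵥ bar D.w (v : Fin D.n → RR G) = 0 := by
      rw [← bar_vecMul, h1, bar_zero]
    obtain ⟨z, hz⟩ := D.coh_one _ h2
    rw [(mem_Im_dgM D.w).1 v.2] at hz
    refine ⟨⟨bar D.w (D.e0 *ᵥ z), ?_⟩, Subtype.ext ?_⟩
    · rw [mem_Im_dgM, bar_bar, Matrix.mulVec_mulVec, D.e0_mul_e0]
    · change (bar D.w (D.e0 *ᵥ z)) ᵥ* dgM D.w D.d1 = (v : Fin D.n → RR G)
      rw [vecMul_dgM, bar_bar, Matrix.mulVec_mulVec, D.d1_mul_e0, hz, bar_bar]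
  · rintro ⟨u, rfl⟩
    refine Subtype.ext ?_
    change ((u : Fin D.n → RR G) ᵥ* dgM D.w D.d1) ᵥ* dgM D.w D.d2 = 0
    rw [Matrix.vecMul_vecMul, ← dgM_mul, (low D).dd, dgM_zero, Matrix.vecMul_zero]

theorem inj_dd2 : Function.Injective (dd2 D) := by
  rw [injective_iff_map_eq_zero]
  intro v h
  have h1 : (v : Fin D.n → RR G) ᵥ* dgM D.w D.d1 = 0 := congrArg Subtype.val h
  have h2 : D.d1 *ᵥ bar D.w (v : Fin D.n → RR G) = 0 := by
    rw [← bar_vecMul, h1, bar_zero]
  have h3 := D.coh_zero _ h2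
  rw [(mem_Im_dgM D.w).1 v.2] at h3
  refine Subtype.ext ?_
  rw [← bar_bar D.w (v : Fin D.n → RR G), h3, bar_zero]
  rfl

/-! ### The resolution of the trivial module -/

/-- the augmentation -/
def pp0 : Im D.e0 →ₗ[RR G] Triv G :=
  linOf (A := Im D.e0) (B := Triv G) (D.aug.comp (Im D.e0).subtype.toAddMonoidHom) (by
    intro g v
    rw [triv_smul]
    exact D.aug_smul g _)

/-- the first differential -/
def pp1 : Im D.e1 →ₗ[RR G] Im D.e0 := mulM _ _ D.d1 D.d1_mul_e0

/-- the second differential -/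
def pp2 : Im D.e2 →ₗ[RR G] Im D.e1 := mulM _ _ D.d2 D.d2_mul_e1

theorem surj_pp0 : Function.Surjective (pp0 D) := by
  intro m
  obtain ⟨u, hu, hu1⟩ := D.aug_surj
  refine ⟨(show ℤ from m) • ⟨u, hu⟩, ?_⟩
  rw [map_zsmul]
  change (show ℤ from m) • D.aug u = m
  rw [hu1, smul_eq_mul, mul_one]

theorem exact_pp1 : Function.Exact (pp1 D) (pp0 D) := by
  intro v
  constructor
  · intro h
    obtain ⟨z, hz⟩ := (D.exact_zero _ v.2).1 h
    refine ⟨⟨z ᵥ* D.e1, ?_⟩, Subtype.ext ?_⟩
    · rw [mem_Im, Matrix.vecMul_vecMul, D.e1_mul_e1]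
    · change (z ᵥ* D.e1) ᵥ* D.d1 = (v : Fin D.n → RR G)
      rw [Matrix.vecMul_vecMul, D.e1_mul_d1, hz]
  · rintro ⟨u, rfl⟩
    exact (D.exact_zero _ (mulM _ _ D.d1 D.d1_mul_e0 u).2).2 ⟨u, rfl⟩

theorem exact_pp2 : Function.Exact (pp2 D) (pp1 D) := by
  intro v
  constructor
  · intro h
    have h1 : (v : Fin D.n → RR G) ᵥ* D.d1 = 0 := congrArg Subtype.val h
    obtain ⟨z, hz⟩ := (D.exact_one _ v.2).1 h1
    refine ⟨⟨z ᵥ* D.e2, ?_⟩, Subtype.ext ?_⟩
    · rw [mem_Im, Matrix.vecMul_vecMul, D.e2_mul_e2]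
    · change (z ᵥ* D.e2) ᵥ* D.d2 = (v : Fin D.n → RR G)
      rw [Matrix.vecMul_vecMul, D.e2_mul_d2, hz]
  · rintro ⟨u, rfl⟩
    exact Subtype.ext ((D.exact_one _ (mulM _ _ D.d2 D.d2_mul_e1 u).2).2 ⟨u, rfl⟩)

theorem inj_pp2 : Function.Injective (pp2 D) := by
  rw [injective_iff_map_eq_zero]
  intro v h
  have h1 : (v : Fin D.n → RR G) ᵥ* D.d2 = 0 := congrArg Subtype.val h
  exact Subtype.ext (D.exact_two _ v.2 h1)

/-! ### The map to the trivial module -/

/-- the sum of the coefficients -/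
def ββ : PM D.H →ₗ[RR G] Triv G :=
  linOf (A := PM D.H) (B := Triv G)
    (show (Cos D.H →₀ ℤ) →+ ℤ from Finsupp.liftAddHom fun _ => AddMonoidHom.id ℤ) (by
      intro g v
      rw [triv_smul, pm_smul]
      change (Finsupp.liftAddHom fun _ => AddMonoidHom.id ℤ) (act g (show Cos D.H →₀ ℤ from v)) =
        (Finsupp.liftAddHom fun _ => AddMonoidHom.id ℤ) (show Cos D.H →₀ ℤ from v)
      generalize (show Cos D.H →₀ ℤ from v) = v
      induction v using Finsupp.induction_linear with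
      | zero => rw [act, Finsupp.mapDomain_zero]
      | add v v' h h' => rw [act_add, map_add, h, h', map_add]
      | single e r => rw [act_single, Finsupp.liftAddHom_apply_single,
          Finsupp.liftAddHom_apply_single])

theorem ββ_apply (v : PM D.H) : ββ D v = (show Cos D.H →₀ ℤ from v).sum fun _ r => r := rfl

theorem surj_ββ : Function.Surjective (ββ D) := by
  intro m
  have h : (Finsupp.single (⟨⟨0, D.k_pos⟩, QuotientGroup.mk 1⟩ : Cos D.H) (show ℤ from m)).sum
      (fun _ r => r) = (show ℤ from m) := Finsupp.sum_single_index rfl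
  exact ⟨(Finsupp.single ⟨⟨0, D.k_pos⟩, QuotientGroup.mk 1⟩ (show ℤ from m) : Cos D.H →₀ ℤ), h⟩

theorem exact_ββ : Function.Exact (dd0 D) (ββ D) := by
  intro v
  constructor
  · intro h
    obtain ⟨y, hy⟩ := (D.range _).1 h
    refine ⟨⟨bar D.w (D.e2 *ᵥ y), ?_⟩, ?_⟩
    · rw [mem_Im_dgM, bar_bar, Matrix.mulVec_mulVec, D.e2_mul_e2]
    · change D.ev (bar D.w (bar D.w (D.e2 *ᵥ y))) = v
      rw [bar_bar, ev_e2, hy]
  · rintro ⟨u, rfl⟩
    exact (D.range _).2 ⟨_, rfl⟩

end

end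

end Pool.Agent.H832.Pair
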