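import Pool.Agent.H832.Pair.Defs
import Pool.Graph.R_pool_sql_team_seeded_2aa45f1a.Q103.BNS.Half

/-!
# Homomorphisms from the dualising module
-/

set_option autoImplicit false

namespace Pool.Agent.H832.Pair

open Pool.Agent.Helper386.PD3 Pool.Agent.Q103.BNS Pool.Agent.Helper158

set_option linter.unusedSectionVars false

open scoped Matrix Classical ENNReal

noncomputable section

variable {G : Type} [Group G]

theorem low (D : PDPair3 G) : Low D.e0 D.e1 D.e2 D.d1 D.d2 where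
  ee0 := D.e0_mul_e0
  ee1 := D.e1_mul_e1
  ee2 := D.e2_mul_e2
  e1d0 := D.e1_mul_d1
  d0e0 := D.d1_mul_e0
  e2d1 := D.e2_mul_d2
  d1e1 := D.d2_mul_e1
  dd := by
    ext1 i j
    have h1 : (Pi.single i (1 : RR G) : Fin D.n → RR G) ᵥ* D.d2 ᵥ* D.e1 =
        (Pi.single i (1 : RR G) : Fin D.n → RR G) ᵥ* D.d2 := by
      rw [Matrix.vecMul_vecMul, D.d2_mul_e1]
    have h2 := (D.exact_one _ h1).2 ⟨_, rfl⟩
    rw [Matrix.vecMul_vecMul, Matrix.single_one_vecMul] at h2
    exact congrFun h2 j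
  aug := by
    refine ⟨D.aug, D.aug_smul, D.aug_surj, fun v => ?_, fun u hu h => (D.exact_zero u hu).1 h⟩
    exact (D.exact_zero _ (by rw [Matrix.vecMul_vecMul, D.d1_mul_e0])).2 ⟨v, rfl⟩
  ex1 := fun v hv h => (D.exact_one v hv).1 h

theorem Tr_map (c : G →* ℝ) {n : ℕ} (e : MR G n) :
    Tr (e.map (iota c)) = ((∑ i, (e i i).coeff 1 : ℤ) : ℝ) := by
  push_cast
  exact Finset.sum_congr rfl fun i _ => τ_iota c _

/-- the contraction in the top degree -/
theorem exists_top (D : PDPair3 G) (hE : D.euler = 0) (c : G →* ℝ) (hin : AllInner (iota c)) (t : G)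
    (ht : 1 < c t) : ∃ X : Matrix (Fin D.n) (Fin D.n) (OA G),
      D.e2.map (iota c) = D.d2.map (iota c) * X := by
  have hL := low D
  have hu1 : IsUnit (iota c (gof t) - 1) := by
    rw [iota_of]
    apply isUnit_smul_sub_one'
    rw [abs_of_pos (by linarith)]
    exact ht
  obtain ⟨X0, X1, h1, h2, h3⟩ := exists_contr (iota c) hL hin t hu1
  obtain ⟨q, hq1, hq2, hq3⟩ := trace_lemma (S := Matrix (Fin D.n) (Fin D.n) (OA G)) Tr Tr_sub Tr_comm
    (e0 := D.e0.map (iota c)) (e1 := D.e1.map (iota c)) (e2 := D.e2.map (iota c))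
    (e3 := 0) (d0 := D.d1.map (iota c)) (d1 := D.d2.map (iota c))
    (d2 := 0) (X0 := X0) (X1 := X1) (X3 := 0)
    (by rw [← map_mulM, hL.ee2]) (by rw [← map_mulM, hL.e2d1])
    (by rw [← map_mulM, hL.d1e1]) (by rw [mul_zero]) (by rw [zero_mul])
    (by rw [← map_mulM, hL.dd, map_zeroM]) (by rw [zero_mul])
    h1 h2 h3 (by rw [mul_zero])
  have hTr0 : Tr (0 : Matrix (Fin D.n) (Fin D.n) (OA G)) = 0 := by
    have := Tr_sub (0 : Matrix (Fin D.n) (Fin D.n) (OA G)) 0
    rw [sub_zero, sub_self] at this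
    exact this
  have hq0 : Tr q = 0 := by
    rw [hq2, Tr_map, Tr_map, Tr_map, hTr0, sub_zero]
    have h4 : D.euler = ∑ i, (D.e0 i i).coeff 1 - ∑ i, (D.e1 i i).coeff 1 +
        ∑ i, (D.e2 i i).coeff 1 := by
      rw [PDPair3.euler, Finset.sum_add_distrib, Finset.sum_sub_distrib]
    rw [h4] at hE
    exact_mod_cast hE
  obtain ⟨X2, hX2⟩ := hq3 ((idem_trace hq1).2 hq0)
  refine ⟨X1, ?_⟩
  rw [hX2, mul_zero, add_zero]

/-- the action of `g` on the functions -/
abbrev act {k : ℕ} {H : Fin k → Subgroup G} (g : G) (v : Cos H →₀ ℤ) : Cos H →₀ ℤ :=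
  v.mapDomain fun e => (⟨e.1, g • e.2⟩ : Cos H)

theorem ev_mulVec (D : PDPair3 G) (z : Fin D.n → RR G) : D.ev (D.d2 *ᵥ z) = 0 := by
  refine (D.ker _).2 ⟨z, ?_⟩
  rw [Matrix.mulVec_mulVec, D.e2_mul_d2]

theorem ev_e2 (D : PDPair3 G) (y : Fin D.n → RR G) : D.ev (D.e2 *ᵥ y) = D.ev y := by
  rw [← sub_eq_zero, ← map_sub]
  refine (D.ker _).2 ⟨0, ?_⟩
  rw [Matrix.mulVec_zero, Matrix.mulVec_sub, Matrix.mulVec_mulVec, D.e2_mul_e2, sub_self]

/-- **Homomorphisms from the dualising module to modules over the opposite algebra vanish.** -/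
theorem hom_zero (D : PDPair3 G) (hE : D.euler = 0) (c : G →* ℝ) (hin : AllInner (iota c)) (t : G)
    (ht : 1 < c t) (N : Type) [AddCommGroup N] [Module (OA G)ᵐᵒᵖ N] (F : (Cos D.H →₀ ℤ) →+ N)
    (hF : ∀ g v, (v.sum fun _ r => r) = 0 → F (act g v) = jj D.w c (gof g) • F v)
    (v : Cos D.H →₀ ℤ) (hv : (v.sum fun _ r => r) = 0) : F v = 0 := by
  obtain ⟨X, hX⟩ := exists_top D hE c hin t ht
  have hΦ : ∀ (r : RR G) (y : Fin D.n → RR G), F (D.ev fun j => y j * r) =
      MulOpposite.op (iota c r) • F (D.ev y) := by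
    intro r y
    induction r using rr_ind with
    | h1 g =>
      have h1 : D.ev (fun j => y j * gof g) = ((D.w g : ℤˣ) : ℤ) • act g⁻¹ (D.ev y) := D.smul y g
      rw [h1, map_zsmul, hF _ _ ((D.range _).2 ⟨y, rfl⟩), jj_apply, dg_of, inv_inv, map_zsmul,
        MulOpposite.op_smul, smul_assoc, smul_smul, ← Units.val_mul, ← map_mul, mul_inv_cancel,
        map_one, Units.val_one, one_smul]
    | h2 a b ha hb =>
      have h1 : (fun j => y j * (a + b)) = (fun j => y j * a) + (fun j => y j * b) := by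
        funext j
        exact mul_add _ _ _
      rw [h1, map_add, map_add, ha, hb, map_add, MulOpposite.op_add, add_smul]
    | h3 a ha =>
      have h1 : (fun j => y j * (-a)) = -(fun j => y j * a) := by
        funext j
        exact mul_neg _ _
      rw [h1, map_neg, map_neg, ha, map_neg, MulOpposite.op_neg, neg_smul]
  let φ : Fin D.n → N := fun i => F (D.ev (Pi.single i 1))
  have hsum : ∀ y : Fin D.n → RR G, F (D.ev y) = ∑ i, MulOpposite.op (iota c (y i)) • φ i := by
    intro y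
    have h1 : y = ∑ i, (fun j => (Pi.single i (1 : RR G) : Fin D.n → RR G) j * y i) := by
      funext k
      rw [Finset.sum_apply, Finset.sum_eq_single k]
      · rw [Pi.single_eq_same, one_mul]
      · intro i _ hi
        rw [Pi.single_eq_of_ne (Ne.symm hi), zero_mul]
      · intro h
        exact absurd (Finset.mem_univ k) h
    conv_lhs => rw [h1, map_sum, map_sum]
    exact Finset.sum_congr rfl fun i _ => hΦ _ _
  have hd : ∀ l, ∑ i, MulOpposite.op (iota c (D.d2 i l)) • φ i = 0 := by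
    intro l
    have h1 := hsum (D.d2 *ᵥ Pi.single l 1)
    rw [ev_mulVec, map_zero] at h1
    rw [Matrix.mulVec_single_one] at h1
    exact h1.symm
  have hφ : ∀ k, φ k = 0 := by
    intro k
    have h1 := hsum (D.e2 *ᵥ Pi.single k 1)
    rw [ev_e2, Matrix.mulVec_single_one] at h1
    change φ k = ∑ i, MulOpposite.op (iota c (D.e2 i k)) • φ i at h1
    rw [h1]
    have h2 : ∀ i, iota c (D.e2 i k) = ∑ l, iota c (D.d2 i l) * X l k := by
      intro i
      exact congrFun (congrFun hX i) k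
    simp only [h2, Finset.op_sum, MulOpposite.op_mul, Finset.sum_smul, mul_smul]
    rw [Finset.sum_comm]
    refine Finset.sum_eq_zero fun l _ => ?_
    rw [← Finset.smul_sum, hd, smul_zero]
  obtain ⟨y, rfl⟩ := (D.range v).1 hv
  rw [hsum]
  exact Finset.sum_eq_zero fun i _ => by rw [hφ, smul_zero]

end

end Pool.Agent.H832.Pair
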