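import Pool.Agent.H832.Pair.Main

/-!
# The rank of a finitely generated projective module over the group ring
-/

set_option autoImplicit false

namespace Pool.Agent.H832.Pair

open Pool.Agent.Helper386.PD3

set_option linter.unusedSectionVars false

open scoped Matrix Classical

noncomputable section

variable {G : Type} [Group G]

theorem coeff_add' (x y : RR G) : (x + y).coeff 1 = x.coeff 1 + y.coeff 1 := by
  rw [MonoidAlgebra.coeff_add, Finsupp.add_apply]

theorem coeff_neg' (x : RR G) : (-x).coeff 1 = -x.coeff 1 := by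
  rw [MonoidAlgebra.coeff_neg, Finsupp.neg_apply]

theorem coeff_sum' {ι : Type} (s : Finset ι) (f : ι → RR G) :
    (∑ i ∈ s, f i).coeff 1 = ∑ i ∈ s, (f i).coeff 1 :=
  map_sum (AddMonoidHom.mk' (fun x : RR G => x.coeff 1) coeff_add') f s

theorem coeff_gof (g : G) : (gof g : RR G).coeff 1 = if g = 1 then 1 else 0 := by
  change (Finsupp.single g (1 : ℤ)) 1 = _
  rw [Finsupp.single_apply]

theorem coeff_comm (x y : RR G) : (x * y).coeff 1 = (y * x).coeff 1 := by
  induction x using rr_ind with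
  | h1 g =>
    induction y using rr_ind with
    | h1 h =>
      rw [← gof_mul, ← gof_mul, coeff_gof, coeff_gof]
      by_cases hh : g * h = 1
      · rw [if_pos hh, if_pos (mul_eq_one_comm.1 hh)]
      · rw [if_neg hh, if_neg (fun h' => hh (mul_eq_one_comm.1 h'))]
    | h2 a b ha hb => rw [mul_add, add_mul, coeff_add', coeff_add', ha, hb]
    | h3 a ha => rw [mul_neg, neg_mul, coeff_neg', coeff_neg', ha]
  | h2 a b ha hb => rw [mul_add, add_mul, coeff_add', coeff_add', ha, hb]
  | h3 a ha => rw [mul_neg, neg_mul, coeff_neg', coeff_neg', ha]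

section

variable {ι κ : Type} [Fintype ι] [Fintype κ]

theorem lin_sum {N : Type} [AddCommGroup N] [Module (RR G) N] (f : (ι → RR G) →ₗ[RR G] N)
    (v : ι → RR G) : f v = ∑ i, v i • f (Pi.single i 1) := by
  have h1 : v = ∑ i, v i • (Pi.single i (1 : RR G) : ι → RR G) := by
    funext k
    rw [Finset.sum_apply, Finset.sum_eq_single k]
    · simp
    · intro i _ hi
      rw [Pi.smul_apply, Pi.single_eq_of_ne (Ne.symm hi), smul_zero]
    · intro h
      exact absurd (Finset.mem_univ k) h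
  conv_lhs => rw [h1, map_sum]
  exact Finset.sum_congr rfl fun i _ => map_smul _ _ _

/-- the trace of an endomorphism of a free module -/
def tr (f : (ι → RR G) →ₗ[RR G] (ι → RR G)) : ℤ := ∑ i, (f (Pi.single i 1) i).coeff 1

theorem tr_eq [d : DecidableEq ι] (f : (ι → RR G) →ₗ[RR G] (ι → RR G)) :
    tr f = ∑ i, (f (Pi.single i 1) i).coeff 1 := by
  have h : d = fun a b => Classical.propDecidable (a = b) := Subsingleton.elim _ _
  subst h
  rfl

theorem tr_comm (A : (ι → RR G) →ₗ[RR G] (κ → RR G)) (B : (κ → RR G) →ₗ[RR G] (ι → RR G)) :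
    tr (B ∘ₗ A) = tr (A ∘ₗ B) := by
  have h1 : tr (B ∘ₗ A) = ∑ i, ∑ k, (A (Pi.single i 1) k * B (Pi.single k 1) i).coeff 1 := by
    refine Finset.sum_congr rfl fun i _ => ?_
    rw [LinearMap.comp_apply, lin_sum B, Finset.sum_apply, coeff_sum']
    rfl
  have h2 : tr (A ∘ₗ B) = ∑ k, ∑ i, (B (Pi.single k 1) i * A (Pi.single i 1) k).coeff 1 := by
    refine Finset.sum_congr rfl fun i _ => ?_
    rw [LinearMap.comp_apply, lin_sum A, Finset.sum_apply, coeff_sum']
    rfl
  rw [h1, h2, Finset.sum_comm]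
  exact Finset.sum_congr rfl fun i _ => Finset.sum_congr rfl fun k _ => coeff_comm _ _

end

/-- `X` is a finitely generated projective module of rank `r` -/
def HasRk (X : Type) [AddCommGroup X] [Module (RR G) X] (r : ℤ) : Prop :=
  ∃ (ι : Type) (_ : Fintype ι) (a : X →ₗ[RR G] (ι → RR G)) (b : (ι → RR G) →ₗ[RR G] X),
    (∀ x, b (a x) = x) ∧ r = tr (a ∘ₗ b)

theorem HasRk.unique {X Y : Type} [AddCommGroup X] [Module (RR G) X] [AddCommGroup Y]
    [Module (RR G) Y] {r s : ℤ} (hX : HasRk (G := G) X r) (hY : HasRk (G := G) Y s)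
    (e : X ≃ₗ[RR G] Y) : r = s := by
  obtain ⟨ι, _, a, b, hab, rfl⟩ := hX
  obtain ⟨κ, _, a', b', hab', rfl⟩ := hY
  have h1 : a ∘ₗ b = (a ∘ₗ e.symm.toLinearMap ∘ₗ b') ∘ₗ (a' ∘ₗ e.toLinearMap ∘ₗ b) := by
    refine LinearMap.ext fun x => ?_
    change a (b x) = a (e.symm (b' (a' (e (b x)))))
    rw [hab', e.symm_apply_apply]
  have h2 : a' ∘ₗ b' = (a' ∘ₗ e.toLinearMap ∘ₗ b) ∘ₗ (a ∘ₗ e.symm.toLinearMap ∘ₗ b') := by
    refine LinearMap.ext fun x => ?_
    change a' (b' x) = a' (e (b (a (e.symm (b' x)))))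
    rw [hab, e.apply_symm_apply]
  rw [h1, h2, tr_comm]

theorem HasRk.prod {X Y : Type} [AddCommGroup X] [Module (RR G) X] [AddCommGroup Y]
    [Module (RR G) Y] {r s : ℤ} (hX : HasRk (G := G) X r) (hY : HasRk (G := G) Y s) :
    HasRk (G := G) (X × Y) (r + s) := by
  obtain ⟨ι, _, a, b, hab, rfl⟩ := hX
  obtain ⟨κ, _, a', b', hab', rfl⟩ := hY
  let A : (X × Y) →ₗ[RR G] (ι ⊕ κ → RR G) :=
    { toFun := fun p => Sum.elim (a p.1) (a' p.2)
      map_add' := fun p q => by
        funext i
        rcases i with i | i <;> simp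
      map_smul' := fun c p => by
        funext i
        rcases i with i | i <;> simp }
  let B : (ι ⊕ κ → RR G) →ₗ[RR G] (X × Y) :=
    { toFun := fun v => (b fun i => v (Sum.inl i), b' fun i => v (Sum.inr i))
      map_add' := fun p q => Prod.ext (b.map_add _ _) (b'.map_add _ _)
      map_smul' := fun c p => Prod.ext (b.map_smul _ _) (b'.map_smul _ _) }
  refine ⟨ι ⊕ κ, inferInstance, A, B, fun x => ?_, ?_⟩
  · change (b (a x.1), b' (a' x.2)) = x
    rw [hab, hab']
  · rw [tr_eq, tr_eq, tr_eq, Fintype.sum_sum_type]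
    congr 1
    · refine Finset.sum_congr rfl fun i _ => ?_
      change (a (b (Pi.single i 1)) i).coeff 1 = (a (b fun j => (Pi.single (Sum.inl i) (1 : RR G) : ι ⊕ κ → RR G) (Sum.inl j)) i).coeff 1
      have : (fun j => (Pi.single (Sum.inl i) (1 : RR G) : ι ⊕ κ → RR G) (Sum.inl j)) =
          Pi.single i 1 := by
        funext j
        by_cases h : j = i
        · subst h
          rw [Pi.single_eq_same, Pi.single_eq_same]
        · rw [Pi.single_eq_of_ne h, Pi.single_eq_of_ne (fun h' => h (Sum.inl.inj h'))]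
      rw [this]
    · refine Finset.sum_congr rfl fun i _ => ?_
      change (a' (b' (Pi.single i 1)) i).coeff 1 = (a' (b' fun j => (Pi.single (Sum.inr i) (1 : RR G) : ι ⊕ κ → RR G) (Sum.inr j)) i).coeff 1
      have : (fun j => (Pi.single (Sum.inr i) (1 : RR G) : ι ⊕ κ → RR G) (Sum.inr j)) =
          Pi.single i 1 := by
        funext j
        by_cases h : j = i
        · subst h
          rw [Pi.single_eq_same, Pi.single_eq_same]
        · rw [Pi.single_eq_of_ne h, Pi.single_eq_of_ne (fun h' => h (Sum.inr.inj h'))]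
      rw [this]

theorem hasRk_free (ι : Type) [Fintype ι] : HasRk (G := G) (ι → RR G) (Fintype.card ι) := by
  refine ⟨ι, inferInstance, LinearMap.id, LinearMap.id, fun x => rfl, ?_⟩
  have : ∀ i : ι, (((LinearMap.id : (ι → RR G) →ₗ[RR G] (ι → RR G)) ∘ₗ LinearMap.id)
      (Pi.single i 1) i).coeff 1 = 1 := by
    intro i
    change ((Pi.single i (1 : RR G) : ι → RR G) i).coeff 1 = 1
    rw [Pi.single_eq_same, ← gof_one, coeff_gof, if_pos rfl]
  rw [tr]
  simp only [this]
  simp

variable {n : ℕ}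

/-- the image of an idempotent matrix -/
def Im (e : MR G n) : Submodule (RR G) (Fin n → RR G) where
  carrier := {v | v ᵥ* e = v}
  add_mem' := fun {a b} ha hb => by
    change (a + b) ᵥ* e = a + b
    rw [Matrix.add_vecMul]
    exact congrArg₂ _ ha hb
  zero_mem' := Matrix.zero_vecMul _
  smul_mem' := fun c {a} ha => by
    change (c • a) ᵥ* e = c • a
    rw [Matrix.smul_vecMul]
    exact congrArg _ ha

theorem mem_Im {e : MR G n} {v : Fin n → RR G} : v ∈ Im e ↔ v ᵥ* e = v := Iff.rfl

/-- the projection to the image -/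
def proj (e : MR G n) (he : e * e = e) : (Fin n → RR G) →ₗ[RR G] Im e where
  toFun v := ⟨v ᵥ* e, by rw [mem_Im, Matrix.vecMul_vecMul, he]⟩
  map_add' v w := Subtype.ext (by
    change (v + w) ᵥ* e = v ᵥ* e + w ᵥ* e
    rw [Matrix.add_vecMul])
  map_smul' c v := Subtype.ext (by
    change (c • v) ᵥ* e = c • (v ᵥ* e)
    rw [Matrix.smul_vecMul])

theorem proj_sub (e : MR G n) (he : e * e = e) (x : Im e) : proj e he (x : Fin n → RR G) = x :=
  Subtype.ext (by
    change (x : Fin n → RR G) ᵥ* e = x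
    exact mem_Im.1 x.2)

theorem hasRk_Im (e : MR G n) (he : e * e = e) :
    HasRk (G := G) (Im e) (∑ i, (e i i).coeff 1) := by
  refine ⟨Fin n, inferInstance, (Im e).subtype, proj e he, fun x => proj_sub e he x, ?_⟩
  rw [tr_eq]
  refine Finset.sum_congr rfl fun i _ => ?_
  have h : ((Im e).subtype ∘ₗ proj e he) (Pi.single i 1) =
      (Pi.single i (1 : RR G) : Fin n → RR G) ᵥ* e := rfl
  rw [h, Matrix.single_one_vecMul]
  rfl

theorem projective_Im (e : MR G n) (he : e * e = e) : Module.Projective (RR G) (Im e) :=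
  Module.Projective.of_split (Im e).subtype (proj e he) (LinearMap.ext fun x => proj_sub e he x)

/-- a matrix as a map between images -/
def mulM (e e' d : MR G n) (h : d * e' = d) : Im e →ₗ[RR G] Im e' where
  toFun v := ⟨(v : Fin n → RR G) ᵥ* d, by rw [mem_Im, Matrix.vecMul_vecMul, h]⟩
  map_add' v w := Subtype.ext (by
    change ((v : Fin n → RR G) + (w : Fin n → RR G)) ᵥ* d =
      (v : Fin n → RR G) ᵥ* d + (w : Fin n → RR G) ᵥ* d
    rw [Matrix.add_vecMul])
  map_smul' c v := Subtype.ext (by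
    change (c • (v : Fin n → RR G)) ᵥ* d = c • ((v : Fin n → RR G) ᵥ* d)
    rw [Matrix.smul_vecMul])

end

end Pool.Agent.H832.Pair
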