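import Pool.Agent.H832.Pair.Sym

/-!
# The Bieri-Neumann-Strebel invariant of a Poincaré duality pair
-/

set_option autoImplicit false

namespace Pool.Agent.H832.Pair

open Pool.Agent.Helper386.PD3 Pool.Agent.Q103.BNS Pool.Agent.Helper158

set_option linter.unusedSectionVars false

open scoped Matrix Classical ENNReal

noncomputable section

variable {G : Type} [Group G]

theorem symm_pair (D : PDPair3 G) (hE : D.euler = 0) (hH : ∀ a, VirtAb (D.H a)) (S : Finset G)
    (hgen : Subgroup.closure (S : Set G) = ⊤) (χ : G → ℝ) (hχ : ∀ g h, χ (g * h) = χ g + χ h)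
    (hne : ∃ g, χ g ≠ 0)
    (hc : ∀ g, χ g ≤ 0 → Relation.ReflTransGen (Step χ (S : Set G) 0) 1 g) :
    (∀ a, ∃ x ∈ D.H a, χ x ≠ 0) ∧
      ∀ x, 0 ≤ χ x → Relation.ReflTransGen (Up χ (S : Set G)) 1 x := by
  obtain ⟨t, ht, htχ⟩ : ∃ t : G, (t ∈ (S : Set G) ∨ t⁻¹ ∈ (S : Set G)) ∧ 0 < χ t := by
    by_contra hex
    push Not at hex
    obtain ⟨g0, hg0⟩ := hne
    apply hg0
    have h0 : ∀ s ∈ (S : Set G), χ s = 0 := by
      intro s hs
      have h1 := hex s (Or.inl hs)
      have h2 := hex s⁻¹ (Or.inr (by rwa [inv_inv]))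
      rw [chi_inv χ hχ] at h2
      linarith
    have hg : g0 ∈ Subgroup.closure (S : Set G) := by
      rw [hgen]
      trivial
    induction hg using Subgroup.closure_induction with
    | mem a ha => exact h0 a ha
    | one => exact chi_one χ hχ
    | mul a b _ _ ha hb =>
      by_cases h : χ a = 0
      · by_cases h' : χ b = 0
        · rw [hχ, h, h', add_zero]
        · exact absurd (hb h') h'
      · exact absurd (ha h) h
    | inv a _ ha =>
      by_cases h : χ a = 0
      · rw [chi_inv χ hχ, h, neg_zero]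
      · exact absurd (ha h) h
  obtain ⟨d, h, hh⟩ : ∃ (d : ℕ) (h : Fin d → G), Set.range h = (S : Set G) := by
    refine ⟨S.card, fun i => (S.equivFin.symm i : G), ?_⟩
    ext x
    constructor
    · rintro ⟨i, rfl⟩
      exact (S.equivFin.symm i).2
    · intro hx
      exact ⟨S.equivFin ⟨x, hx⟩, by simp⟩
  obtain ⟨r, hr, hA⟩ := exists_weight' χ hχ h (by rw [hh]; exact hgen) t (by rw [hh]; exact ht)
    htχ (by rw [hh]; exact hc)
  have hct : 1 < ex χ hχ r t := by
    rw [ex_apply]
    exact Real.one_lt_exp_iff.2 (by positivity)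
  refine ⟨fun a => ?_, ?_⟩
  · obtain ⟨x, hx, hx1⟩ := exists_ne D hE _ hA t hct a
    refine ⟨x, hx, fun h0 => hx1 ?_⟩
    rw [ex_apply, h0, mul_zero, Real.exp_zero]
  · exact half_of_allInner χ hχ S hgen t ht htχ r hr D.w
      (allInner_pair D hE _ (fun g => Real.exp_pos _) hA t hct hH)

end

end Pool.Agent.H832.Pair
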