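import Pool.Agent.H832.Pair.Euler

/-!
# The resolution of the permutation module, and the Euler characteristic
-/

set_option autoImplicit false

namespace Pool.Agent.H832.Pair

open Pool.Agent.Helper386.PD3

set_option linter.unusedSectionVars false

open scoped Matrix Classical

noncomputable section

variable {G : Type} [Group G]

/-- a basis of a free abelian subgroup -/
theorem exists_basis (H : Subgroup G) (h : Nonempty (H ≃* Multiplicative (ℤ × ℤ))) :
    ∃ p : G × G, p.1 ∈ H ∧ p.2 ∈ H ∧ p.1 * p.2 = p.2 * p.1 ∧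
      (∀ i j : ℤ, p.1 ^ i * p.2 ^ j = 1 → i = 0 ∧ j = 0) ∧ H = Subgroup.closure {p.1, p.2} := by
  obtain ⟨φ⟩ := h
  let a : H := φ.symm (Multiplicative.ofAdd (1, 0))
  let b : H := φ.symm (Multiplicative.ofAdd (0, 1))
  have hab : ∀ i j : ℤ, a ^ i * b ^ j = φ.symm (Multiplicative.ofAdd (i, j)) := by
    intro i j
    change φ.symm (Multiplicative.ofAdd (1, 0)) ^ i * φ.symm (Multiplicative.ofAdd (0, 1)) ^ j = _
    rw [← map_zpow φ.symm, ← map_zpow φ.symm, ← map_mul φ.symm, ← ofAdd_zsmul, ← ofAdd_zsmul, ← ofAdd_add]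
    congr 2
    simp
  refine ⟨(a, b), a.2, b.2, ?_, ?_, ?_⟩
  · change ((a * b : H) : G) = ((b * a : H) : G)
    congr 1
    apply φ.injective
    rw [map_mul, map_mul, mul_comm]
  · intro i j hij
    have h1 : a ^ i * b ^ j = 1 := by
      apply Subtype.ext
      rw [Subgroup.coe_mul, Subgroup.coe_zpow, Subgroup.coe_zpow]
      exact hij
    rw [hab] at h1
    have h2 : Multiplicative.ofAdd ((i, j) : ℤ × ℤ) = 1 := by
      apply φ.symm.injective
      rw [h1, map_one]
    have h3 : ((i, j) : ℤ × ℤ) = 0 := h2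
    exact ⟨congrArg Prod.fst h3, congrArg Prod.snd h3⟩
  · apply le_antisymm
    · intro x hx
      obtain ⟨⟨i, j⟩, hij⟩ : ∃ p : ℤ × ℤ, φ ⟨x, hx⟩ = Multiplicative.ofAdd p := ⟨_, rfl⟩
      have h1 : (⟨x, hx⟩ : H) = a ^ i * b ^ j := by
        rw [hab, ← hij, φ.symm_apply_apply]
      have h2 : x = (a : G) ^ i * (b : G) ^ j := by
        have := congrArg Subtype.val h1
        rw [Subgroup.coe_mul, Subgroup.coe_zpow, Subgroup.coe_zpow] at this
        exact this
      rw [h2]
      exact mul_mem (zpow_mem (Subgroup.subset_closure (by simp)) _)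
        (zpow_mem (Subgroup.subset_closure (by simp)) _)
    · rw [Subgroup.closure_le]
      rintro x (rfl | hx)
      · exact a.2
      · rw [Set.mem_singleton_iff.1 hx]
        exact b.2

theorem coeff_of_mul (g : G) (x : RR G) : (gof g * x).coeff = x.coeff.mapDomain (fun h => g * h) := by
  induction x using MonoidAlgebra.induction_linear with
  | zero => simp
  | add x y hx hy =>
    rw [mul_add, MonoidAlgebra.coeff_add, hx, hy, MonoidAlgebra.coeff_add, Finsupp.mapDomain_add]
  | single h r => simp [MonoidAlgebra.single_mul_single]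

section

variable {k : ℕ} (H : Fin k → Subgroup G)

/-- the map to the cosets -/
def fa (a : Fin k) (g : G) : Cos H := ⟨a, QuotientGroup.mk g⟩

/-- the additive map to the permutation module -/
def qa : (Fin k → RR G) →+ (Cos H →₀ ℤ) where
  toFun v := ∑ a, (v a).coeff.mapDomain (fa H a)
  map_zero' := by
    refine Finset.sum_eq_zero fun a _ => ?_
    rw [Pi.zero_apply, MonoidAlgebra.coeff_zero, Finsupp.mapDomain_zero]
  map_add' v v' := by
    rw [← Finset.sum_add_distrib]
    refine Finset.sum_congr rfl fun a _ => ?_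
    rw [Pi.add_apply, MonoidAlgebra.coeff_add, Finsupp.mapDomain_add]

theorem qa_apply (v : Fin k → RR G) : qa H v = ∑ a, (v a).coeff.mapDomain (fa H a) := rfl

/-- the map to the permutation module -/
def q0 : (Fin k → RR G) →ₗ[RR G] PM H :=
  linOf (A := Fin k → RR G) (B := PM H) (show (Fin k → RR G) →+ (Cos H →₀ ℤ) from qa H) (by
    intro g v
    rw [pm_smul]
    change qa H (gof g • v) = act g (qa H v)
    have hact : act g (qa H v) = ∑ a, act g ((v a).coeff.mapDomain (fa H a)) := by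
      rw [qa_apply]
      exact map_sum (Finsupp.mapDomain.addMonoidHom fun e : Cos H => (⟨e.1, g • e.2⟩ : Cos H)) _ _
    rw [hact, qa_apply]
    refine Finset.sum_congr rfl fun a _ => ?_
    change (gof g * v a).coeff.mapDomain (fa H a) = _
    rw [coeff_of_mul, ← Finsupp.mapDomain_comp, act, ← Finsupp.mapDomain_comp]
    rfl)

theorem q0_apply (v : Fin k → RR G) : q0 H v = (qa H v : Cos H →₀ ℤ) := rfl

theorem surj_q0 : Function.Surjective (q0 H) := by
  intro v
  suffices h : ∀ v : Cos H →₀ ℤ, ∃ u, qa H u = v from h v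
  intro v
  induction v using Finsupp.induction_linear with
  | zero => exact ⟨0, map_zero _⟩
  | add v v' h h' =>
    obtain ⟨u, rfl⟩ := h
    obtain ⟨u', rfl⟩ := h'
    exact ⟨u + u', map_add _ _ _⟩
  | single e r =>
    obtain ⟨a, q⟩ := e
    obtain ⟨g, rfl⟩ := QuotientGroup.mk_surjective q
    refine ⟨Pi.single a (MonoidAlgebra.single g r), ?_⟩
    rw [qa_apply, Finset.sum_eq_single a]
    · rw [Pi.single_eq_same]
      change (Finsupp.single g r).mapDomain (fa H a) = _
      rw [Finsupp.mapDomain_single]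
      rfl
    · intro b _ hb
      rw [Pi.single_eq_of_ne hb, MonoidAlgebra.coeff_zero, Finsupp.mapDomain_zero]
    · intro h
      exact absurd (Finset.mem_univ a) h

theorem comp_eq_zero (a : Fin k) (h : G) (hh : h ∈ H a) (p : RR G) :
    (p * (gof h - 1)).coeff.mapDomain (fa H a) = 0 := by
  have h1 : fa H a ∘ (fun g => g * h) = fa H a := by
    funext g
    change (⟨a, QuotientGroup.mk (g * h)⟩ : Cos H) = ⟨a, QuotientGroup.mk g⟩
    congr 1
    exact QuotientGroup.mk_mul_of_mem g hh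
  have h2 : p * (gof h - 1) + p = p * gof h := by
    rw [mul_sub, mul_one, sub_add_cancel]
  have h3 : (p * (gof h - 1)).coeff.mapDomain (fa H a) + p.coeff.mapDomain (fa H a) =
      p.coeff.mapDomain (fa H a) := by
    rw [← Finsupp.mapDomain_add, ← MonoidAlgebra.coeff_add, h2, Koszul.coeff_mul_of,
      ← Finsupp.mapDomain_comp, h1]
  exact add_eq_right.1 h3

theorem comp_zero (a : Fin k) (v : Fin k → RR G) (hv : qa H v = 0) :
    (v a).coeff.mapDomain (QuotientGroup.mk : G → G ⧸ H a) = 0 := by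
  ext q
  have h1 : (qa H v) ⟨a, q⟩ = 0 := by rw [hv]; rfl
  rw [qa_apply, Finsupp.finsetSum_apply, Finset.sum_eq_single a] at h1
  · rw [Finsupp.coe_zero, Pi.zero_apply, ← h1]
    have h2 : fa H a = (fun q : G ⧸ H a => (⟨a, q⟩ : Cos H)) ∘ (QuotientGroup.mk : G → G ⧸ H a) :=
      rfl
    have h3 : Function.Injective (fun q : G ⧸ H a => (⟨a, q⟩ : Cos H)) := by
      intro q q' h
      exact eq_of_heq (Sigma.mk.inj h).2
    rw [h2, Finsupp.mapDomain_comp]
    exact (Finsupp.mapDomain_apply h3 _ _).symm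
  · intro b _ hb
    refine Finsupp.mapDomain_of_notMem_range _ _ ?_
    rintro ⟨g, hg⟩
    exact hb (congrArg Sigma.fst hg)
  · intro h
    exact absurd (Finset.mem_univ a) h

variable (p : Fin k → G × G)

/-- the first Koszul differential -/
def q1 : ((Fin k → RR G) × (Fin k → RR G)) →ₗ[RR G] (Fin k → RR G) where
  toFun v := fun a => v.1 a * (gof (p a).1 - 1) + v.2 a * (gof (p a).2 - 1)
  map_add' v v' := by
    funext a
    change (v.1 a + v'.1 a) * _ + (v.2 a + v'.2 a) * _ = (_ * _ + _ * _) + (_ * _ + _ * _)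
    rw [add_mul, add_mul]
    abel
  map_smul' c v := by
    funext a
    change (c * v.1 a) * _ + (c * v.2 a) * _ = c * (_ * _ + _ * _)
    rw [mul_add, mul_assoc, mul_assoc]

/-- the second Koszul differential -/
def q2 : (Fin k → RR G) →ₗ[RR G] ((Fin k → RR G) × (Fin k → RR G)) where
  toFun v := (fun a => v a * (1 - gof (p a).2), fun a => v a * (gof (p a).1 - 1))
  map_add' v v' := by
    refine Prod.ext (funext fun a => ?_) (funext fun a => ?_)
    · exact add_mul _ _ _
    · exact add_mul _ _ _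
  map_smul' c v := by
    refine Prod.ext (funext fun a => ?_) (funext fun a => ?_)
    · exact mul_assoc _ _ _
    · exact mul_assoc _ _ _

theorem exact_q1 (hp1 : ∀ a, (p a).1 ∈ H a) (hp2 : ∀ a, (p a).2 ∈ H a)
    (hcl : ∀ a, H a = Subgroup.closure {(p a).1, (p a).2}) : Function.Exact (q1 p) (q0 H) := by
  intro v
  constructor
  · intro h
    have h1 : qa H v = 0 := h
    choose x y hxy using fun a => Koszul.quot (p a).1 (p a).2 (H a) (hcl a) (v a)
      (comp_zero H a v h1)
    refine ⟨(x, y), ?_⟩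
    funext a
    exact (hxy a).symm
  · rintro ⟨u, rfl⟩
    change qa H (q1 p u) = 0
    rw [qa_apply]
    refine Finset.sum_eq_zero fun a _ => ?_
    change (u.1 a * (gof (p a).1 - 1) + u.2 a * (gof (p a).2 - 1)).coeff.mapDomain (fa H a) = 0
    rw [MonoidAlgebra.coeff_add, Finsupp.mapDomain_add, comp_eq_zero H a _ (hp1 a),
      comp_eq_zero H a _ (hp2 a), add_zero]

theorem exact_q2 (hcomm : ∀ a, (p a).1 * (p a).2 = (p a).2 * (p a).1)
    (hfree : ∀ a, ∀ i j : ℤ, (p a).1 ^ i * (p a).2 ^ j = 1 → i = 0 ∧ j = 0) :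
    Function.Exact (q2 p) (q1 p) := by
  intro v
  constructor
  · intro h
    choose z hz1 hz2 using fun a => Koszul.exact (p a).1 (p a).2 (hcomm a) (hfree a) (v.1 a) (v.2 a)
      (congrFun h a)
    refine ⟨z, ?_⟩
    refine Prod.ext (funext fun a => ?_) (funext fun a => ?_)
    · exact (hz1 a).symm
    · exact (hz2 a).symm
  · rintro ⟨u, rfl⟩
    funext a
    change (u a * (1 - gof (p a).2)) * (gof (p a).1 - 1) +
      (u a * (gof (p a).1 - 1)) * (gof (p a).2 - 1) = 0
    have h1 : gof (p a).1 * gof (p a).2 = gof (p a).2 * gof (p a).1 := by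
      rw [← gof_mul, ← gof_mul, hcomm]
    rw [mul_assoc, mul_assoc, ← mul_add]
    have h2 : (1 - gof (p a).2) * (gof (p a).1 - 1) + (gof (p a).1 - 1) * (gof (p a).2 - 1) = 0 := by
      have h3 : (1 - gof (p a).2) * (gof (p a).1 - 1) + (gof (p a).1 - 1) * (gof (p a).2 - 1) =
          gof (p a).1 * gof (p a).2 - gof (p a).2 * gof (p a).1 := by noncomm_ring
      rw [h3, h1, sub_self]
    rw [h2, mul_zero]

theorem inj_q2 (hfree : ∀ a, ∀ i j : ℤ, (p a).1 ^ i * (p a).2 ^ j = 1 → i = 0 ∧ j = 0) :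
    Function.Injective (q2 p) := by
  rw [injective_iff_map_eq_zero]
  intro v h
  funext a
  refine Koszul.inj (p a).1 (fun i hi => (hfree a i 0 (by rw [hi, zpow_zero, one_mul])).1) _ ?_
  exact congrFun (congrArg Prod.snd h) a

end

/-- **The Euler characteristic vanishes** -/
theorem euler_eq_zero (D : PDPair3 G) (hT : ∀ a, Nonempty (D.H a ≃* Multiplicative (ℤ × ℤ))) :
    D.euler = 0 := by
  choose p hp1 hp2 hcomm hfree hcl using fun a => exists_basis (D.H a) (hT a)
  have i1 := projective_Im D.e0 D.e0_mul_e0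
  have i2 := projective_Im D.e1 D.e1_mul_e1
  have i3 := projective_Im D.e2 D.e2_mul_e2
  have i4 := projective_Im (dgM D.w D.e0) (dgM_idem D.w D.e0_mul_e0)
  have i5 := projective_Im (dgM D.w D.e1) (dgM_idem D.w D.e1_mul_e1)
  have i6 := projective_Im (dgM D.w D.e2) (dgM_idem D.w D.e2_mul_e2)
  obtain ⟨iso⟩ := Schanuel.euler_iso (R := RR G) (pp0 D) (pp1 D) (pp2 D) (surj_pp0 D) (exact_pp1 D)
    (exact_pp2 D) (inj_pp2 D) (dd0 D) (dd1 D) (dd2 D) (exact_dd1 D) (exact_dd2 D) (inj_dd2 D)
    (q0 D.H) (q1 p) (q2 p) (surj_q0 D.H) (exact_q1 D.H p hp1 hp2 hcl) (exact_q2 p hcomm hfree)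
    (inj_q2 p hfree) (ββ D) (surj_ββ D) (exact_ββ D)
  have r0 := hasRk_Im D.e0 D.e0_mul_e0
  have r1 := hasRk_Im D.e1 D.e1_mul_e1
  have r2 := hasRk_Im D.e2 D.e2_mul_e2
  have s0 := hasRk_Im (dgM D.w D.e0) (dgM_idem D.w D.e0_mul_e0)
  have s1 := hasRk_Im (dgM D.w D.e1) (dgM_idem D.w D.e1_mul_e1)
  have s2 := hasRk_Im (dgM D.w D.e2) (dgM_idem D.w D.e2_mul_e2)
  have t0 := hasRk_free (G := G) (Fin D.k)
  have h := HasRk.unique (r0.prod (r2.prod ((t0.prod t0).prod (s2.prod s0))))
    (r1.prod (t0.prod (t0.prod s1))) iso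
  have hdg : ∀ e : MR G D.n, ∑ i, (dgM D.w e i i).coeff 1 = ∑ i, (e i i).coeff 1 :=
    fun e => Finset.sum_congr rfl fun i _ => dg_coeff_one D.w _
  rw [hdg, hdg, hdg] at h
  have h4 : D.euler = ∑ i, (D.e0 i i).coeff 1 - ∑ i, (D.e1 i i).coeff 1 +
      ∑ i, (D.e2 i i).coeff 1 := by
    rw [PDPair3.euler, Finset.sum_add_distrib, Finset.sum_sub_distrib]
  rw [h4]
  linarith

end

end Pool.Agent.H832.Pair
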